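import Pool.Agent.Lib.MP_ca0fc2_an.Mg.G119

/-! Campaign OVN, X1: the averages of `log (1 + |z|²)` over circles. -/

set_option autoImplicit false

open Metric Set MeasureTheory Filter Topology Real

namespace Pool.Agent.MPca0fc2.OVN

private theorem x1_disc (z : ℂ) (ρ : ℝ) :
    (1 + ‖z‖ ^ 2) ^ 2 + ρ ^ 2 * (ρ ^ 2 + 2) - 2 * ρ ^ 2 * ‖z‖ ^ 2 =
      (1 + ‖z‖ ^ 2 + ρ ^ 2) ^ 2 - 4 * ρ ^ 2 * ‖z‖ ^ 2 := by ring

/-- `(1 + |z|² - ρ²)² + 4ρ² = A² - 4ρ²|z|²`. -/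
private theorem x1_disc2 (r ρ : ℝ) :
    (1 + r ^ 2 - ρ ^ 2) ^ 2 + 4 * ρ ^ 2 = (1 + r ^ 2 + ρ ^ 2) ^ 2 - 4 * ρ ^ 2 * r ^ 2 := by ring

private theorem x1_sqrt_ge (r ρ : ℝ) :
    1 + r ^ 2 - ρ ^ 2 ≤ √((1 + r ^ 2 + ρ ^ 2) ^ 2 - 4 * ρ ^ 2 * r ^ 2) := by
  apply Real.le_sqrt_of_sq_le
  rw [← x1_disc2]
  nlinarith [sq_nonneg ρ]

private theorem x1_sqrt_gt (r : ℝ) {ρ : ℝ} (hρ : ρ ≠ 0) :
    1 + r ^ 2 - ρ ^ 2 < √((1 + r ^ 2 + ρ ^ 2) ^ 2 - 4 * ρ ^ 2 * r ^ 2) := by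
  apply Real.lt_sqrt_of_sq_lt
  rw [← x1_disc2]
  have : 0 < ρ ^ 2 := by positivity
  linarith

/-- the number `s` with `AL z ρ = log s` -/
private theorem x1_s (r ρ : ℝ) {s : ℝ}
    (hs : s = (1 + r ^ 2 + ρ ^ 2 + √((1 + r ^ 2 + ρ ^ 2) ^ 2 - 4 * ρ ^ 2 * r ^ 2)) / 2) :
    1 + r ^ 2 ≤ s ∧ s + ρ ^ 2 * r ^ 2 / s = 1 + r ^ 2 + ρ ^ 2 ∧ ρ ^ 2 * r ^ 2 < s ^ 2 := by
  have h1 := x1_sqrt_ge r ρ
  have hD : 0 ≤ (1 + r ^ 2 + ρ ^ 2) ^ 2 - 4 * ρ ^ 2 * r ^ 2 := by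
    rw [← x1_disc2]; positivity
  have h2 := Real.sq_sqrt hD
  have h0 := Real.sqrt_nonneg ((1 + r ^ 2 + ρ ^ 2) ^ 2 - 4 * ρ ^ 2 * r ^ 2)
  set q := √((1 + r ^ 2 + ρ ^ 2) ^ 2 - 4 * ρ ^ 2 * r ^ 2) with hq
  have h3 : 1 + r ^ 2 ≤ s := by rw [hs]; linarith
  have h4 : 0 < s := by nlinarith [sq_nonneg r]
  have h5 : s ^ 2 - (1 + r ^ 2 + ρ ^ 2) * s + ρ ^ 2 * r ^ 2 = 0 := by
    rw [hs]
    linear_combination (1 / 4 : ℝ) * h2
  refine ⟨h3, ?_, ?_⟩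
  · field_simp
    linarith
  · have h6 : 0 < q := by
      rw [hq]
      apply Real.sqrt_pos.2
      rw [← x1_disc2]
      by_cases h : ρ = 0
      · subst h
        have : 0 < (1 + r ^ 2) ^ 2 := by positivity
        simpa using this
      · have : 0 < ρ ^ 2 := by positivity
        nlinarith [sq_nonneg (1 + r ^ 2 - ρ ^ 2)]
    have h7 : 0 < (1 + r ^ 2 + ρ ^ 2) := by positivity
    have h8 : 1 + r ^ 2 + ρ ^ 2 < 2 * s := by rw [hs]; linarith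
    nlinarith

/-- PROOF. `A = 1 + |z|² + ρ²`, `s = (A + √(A² - 4ρ²|z|²)) / 2 > 0`, `a = √s` real, `b = ρ z̄ / a`. For `|ζ| = 1`:
`1 + |z + ρ ζ|² = |a + b ζ|²`, `|b| < |a|`, so `a + b ζ` has no zeros on the closed disc and
`AnalyticOnNhd.circleAverage_log_norm_of_ne_zero` gives `2 log |a| = log s`. -/
theorem average_EL (z : ℂ) {ρ : ℝ} (hρ : 0 ≤ ρ) : circleAverage EL z ρ = AL z ρ := by
  obtain ⟨s, hs⟩ : ∃ s, s = (1 + ‖z‖ ^ 2 + ρ ^ 2 +
    √((1 + ‖z‖ ^ 2 + ρ ^ 2) ^ 2 - 4 * ρ ^ 2 * ‖z‖ ^ 2)) / 2 := ⟨_, rfl⟩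
  obtain ⟨h1, h2, h3⟩ := x1_s ‖z‖ ρ hs
  have hs0 : 0 < s := by nlinarith [sq_nonneg ‖z‖]
  have hAL : AL z ρ = Real.log s := by rw [AL, hs]
  have ha : 0 < √s := Real.sqrt_pos.2 hs0
  have ha2 : √s ^ 2 = s := Real.sq_sqrt hs0.le
  set a : ℝ := √s with hadef
  set b : ℂ := (ρ : ℂ) * (starRingEnd ℂ z) / (a : ℂ) with hb
  have hbn : ‖b‖ = ρ * ‖z‖ / a := by
    rw [hb, norm_div, norm_mul, Complex.norm_real, Complex.norm_real, RCLike.norm_conj,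
      Real.norm_of_nonneg hρ, Real.norm_of_nonneg ha.le]
  have hba : ‖b‖ < a := by
    rw [hbn, div_lt_iff₀ ha]
    have : (ρ * ‖z‖) ^ 2 < (a * a) ^ 2 := by
      rw [← pow_two, ha2]
      nlinarith
    exact lt_of_pow_lt_pow_left₀ 2 (by positivity) this
  have hne : ∀ ζ ∈ closedBall (0 : ℂ) |1|, (a : ℂ) + b * ζ ≠ 0 := by
    intro ζ hζ h
    rw [abs_one, mem_closedBall_zero_iff] at hζ
    have h4 : (a : ℂ) = -(b * ζ) := eq_neg_of_add_eq_zero_left h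
    have h5 : a = ‖b * ζ‖ := by
      have := congrArg norm h4
      rwa [norm_neg, Complex.norm_real, Real.norm_of_nonneg ha.le] at this
    rw [norm_mul] at h5
    have : ‖b‖ * ‖ζ‖ ≤ ‖b‖ * 1 := mul_le_mul_of_nonneg_left hζ (norm_nonneg _)
    linarith
  have han : AnalyticOnNhd ℂ (fun ζ : ℂ => (a : ℂ) + b * ζ) (closedBall 0 |1|) := by
    intro x _
    fun_prop
  have h6 := han.circleAverage_log_norm_of_ne_zero hne
  have h7 : circleAverage EL z ρ = circleAverage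
      (fun ζ => (2 : ℝ) • Real.log ‖(a : ℂ) + b * ζ‖) 0 1 := by
    rw [circleAverage_eq_circleAverage_zero_one]
    apply circleAverage_congr_sphere
    intro ζ hζ
    rw [abs_one, mem_sphere_zero_iff_norm] at hζ
    have h8 : 1 + ‖(ρ : ℂ) * ζ + z‖ ^ 2 = ‖(a : ℂ) + b * ζ‖ ^ 2 := by
      have e1 : ‖(ρ : ℂ) * ζ + z‖ ^ 2 = ρ ^ 2 + ‖z‖ ^ 2 + 2 * ρ * (starRingEnd ℂ z * ζ).re := by
        rw [← Complex.normSq_eq_norm_sq, Complex.normSq_add, Complex.normSq_mul,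
          Complex.normSq_ofReal, Complex.normSq_eq_norm_sq, Complex.normSq_eq_norm_sq, hζ]
        have : ((ρ : ℂ) * ζ * starRingEnd ℂ z).re = ρ * (starRingEnd ℂ z * ζ).re := by
          rw [mul_assoc, Complex.re_ofReal_mul, mul_comm ζ]
        rw [this]
        ring
      have e2 : ‖(a : ℂ) + b * ζ‖ ^ 2 = s + ρ ^ 2 * ‖z‖ ^ 2 / s + 2 * ρ * (starRingEnd ℂ z * ζ).re := by
        rw [← Complex.normSq_eq_norm_sq, Complex.normSq_add, Complex.normSq_mul,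
          Complex.normSq_ofReal, Complex.normSq_eq_norm_sq, Complex.normSq_eq_norm_sq, hζ, hbn]
        have e3 : ((a : ℂ) * starRingEnd ℂ (b * ζ)).re = ρ * (starRingEnd ℂ z * ζ).re := by
          rw [Complex.re_ofReal_mul, Complex.conj_re, hb]
          have : (ρ : ℂ) * starRingEnd ℂ z / (a : ℂ) * ζ = ((ρ / a : ℝ) : ℂ) * (starRingEnd ℂ z * ζ) := by
            push_cast
            ring
          rw [this, Complex.re_ofReal_mul]
          field_simp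
        rw [e3, div_pow, ha2, one_pow, mul_one, mul_pow]
        have : a * a = s := by rw [← pow_two, ha2]
        rw [this]
        ring
      rw [e1, e2, h2]
      ring
    change EL ((ρ : ℂ) * ζ + z) = (2 : ℝ) • Real.log ‖(a : ℂ) + b * ζ‖
    rw [EL, h8, Real.log_pow, smul_eq_mul]
    norm_num
  rw [h7, circleAverage_fun_smul, h6, hAL, mul_zero, add_zero, Complex.norm_real,
    Real.norm_of_nonneg ha.le, smul_eq_mul, ← ha2, Real.log_pow]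
  norm_num

/-- `s ≥ 1 + |z|²` -/
theorem EL_le (z : ℂ) (ρ : ℝ) : EL z ≤ AL z ρ := by
  rw [EL, AL]
  apply Real.log_le_log (by positivity)
  have := x1_sqrt_ge ‖z‖ ρ
  linarith

theorem EL_lt (z : ℂ) {ρ : ℝ} (hρ : ρ ≠ 0) : EL z < AL z ρ := by
  rw [EL, AL]
  apply Real.log_lt_log (by positivity)
  have := x1_sqrt_gt ‖z‖ hρ
  linarith

/-- one half of the Lipschitz bound -/
private theorem x1_lip {r t : ℝ} (hr : 0 ≤ r) (ht : 0 ≤ t) :
    Real.log (1 + r ^ 2) - Real.log (1 + t ^ 2) ≤ 2 * |r - t| := by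
  rcases le_total r t with h | h
  · have : Real.log (1 + r ^ 2) ≤ Real.log (1 + t ^ 2) := by
      apply Real.log_le_log (by positivity)
      nlinarith
    have := abs_nonneg (r - t)
    linarith
  · rw [abs_of_nonneg (by linarith), ← Real.log_div (by positivity) (by positivity)]
    have h0 : 0 < (1 + r ^ 2) / (1 + t ^ 2) := by positivity
    have h1 : (1 + r ^ 2) / (1 + t ^ 2) ≤ (1 + (r - t)) ^ 2 := by
      rw [div_le_iff₀ (by positivity)]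
      have e : (1 + (r - t)) ^ 2 * (1 + t ^ 2) - (1 + r ^ 2) =
          2 * (r - t) * (1 + t ^ 2 - t) + (r - t) ^ 2 * t ^ 2 := by ring
      have : 0 ≤ 1 + t ^ 2 - t := by nlinarith [sq_nonneg (t - 1 / 2)]
      have : 0 ≤ 2 * (r - t) * (1 + t ^ 2 - t) := by
        apply mul_nonneg _ this
        linarith
      have : 0 ≤ (r - t) ^ 2 * t ^ 2 := by positivity
      linarith
    calc Real.log ((1 + r ^ 2) / (1 + t ^ 2)) ≤ Real.log ((1 + (r - t)) ^ 2) :=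
          Real.log_le_log h0 h1
      _ = 2 * Real.log (1 + (r - t)) := by rw [Real.log_pow]; norm_num
      _ ≤ 2 * (r - t) := by
          have := Real.log_le_sub_one_of_pos (show 0 < 1 + (r - t) by linarith)
          linarith

/-- `log √(1 + r²)` is 1-Lipschitz in `r ≥ 0` -/
theorem EL_lip (z w : ℂ) : |EL z - EL w| ≤ 2 * ‖z - w‖ := by
  have h1 := x1_lip (norm_nonneg z) (norm_nonneg w)
  have h2 := x1_lip (norm_nonneg w) (norm_nonneg z)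
  have h3 := abs_norm_sub_norm_le z w
  rw [abs_sub_comm] at h2
  rw [abs_sub_le_iff]
  unfold EL
  constructor <;> linarith

theorem EL_cont : Continuous EL := by
  unfold EL
  apply Continuous.log
  · fun_prop
  · intro x
    positivity

/-- continuity (for continuous `ρ`) -/
theorem AL_cont {X : Type*} [TopologicalSpace X] {z : X → ℂ} {ρ : X → ℝ} (hz : Continuous z)
    (hρ : Continuous ρ) : Continuous fun x => AL (z x) (ρ x) := by
  unfold AL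
  apply Continuous.log
  · fun_prop
  · intro x
    have := Real.sqrt_nonneg ((1 + ‖z x‖ ^ 2 + ρ x ^ 2) ^ 2 - 4 * ρ x ^ 2 * ‖z x‖ ^ 2)
    positivity

end Pool.Agent.MPca0fc2.OVN
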