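import Pool.Agent.Lib.MP_ca0fc2_an.Mg.G119

/-! Campaign OVN, row X2a: trigonometric approximation on the unit circle. -/

set_option autoImplicit false

open Metric Set MeasureTheory Filter Topology Real

namespace Pool.Agent.MPca0fc2.OVN

/-- every finite combination of the exponentials is, after multiplication by a power of `t`, a polynomial in `t` -/
theorem span_fourier_poly (g : C(AddCircle (2 * Real.pi), ℂ))
    (hg : g ∈ Submodule.span ℂ (Set.range (@fourier (2 * Real.pi)))) :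
    ∃ (N : ℕ) (Q : Polynomial ℂ), ∀ x : AddCircle (2 * Real.pi),
      Q.eval (AddCircle.toCircle x : ℂ) = (AddCircle.toCircle x : ℂ) ^ N * g x := by
  induction hg using Submodule.span_induction with
  | mem g hg =>
    obtain ⟨n, rfl⟩ := hg
    refine ⟨n.natAbs, Polynomial.X ^ (n + n.natAbs).toNat, fun x => ?_⟩
    have h0 : (AddCircle.toCircle x : ℂ) ≠ 0 := Circle.coe_ne_zero _
    have h1 : 0 ≤ n + (n.natAbs : ℤ) := by omega
    rw [Polynomial.eval_pow, Polynomial.eval_X, fourier_apply, AddCircle.toCircle_zsmul,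
      Circle.coe_zpow, ← zpow_natCast, ← zpow_natCast, Int.toNat_of_nonneg h1, zpow_add₀ h0]
    ring
  | zero => exact ⟨0, 0, fun x => by simp⟩
  | add g₁ g₂ _ _ h₁ h₂ =>
    obtain ⟨N₁, Q₁, h₁⟩ := h₁
    obtain ⟨N₂, Q₂, h₂⟩ := h₂
    refine ⟨N₁ + N₂, Q₁ * Polynomial.X ^ N₂ + Q₂ * Polynomial.X ^ N₁, fun x => ?_⟩
    simp only [Polynomial.eval_add, Polynomial.eval_mul, Polynomial.eval_pow, Polynomial.eval_X,
      h₁, h₂, ContinuousMap.add_apply]
    ring
  | smul c g _ h =>
    obtain ⟨N, Q, h⟩ := h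
    refine ⟨N, Polynomial.C c * Q, fun x => ?_⟩
    simp only [Polynomial.eval_mul, Polynomial.eval_C, h, ContinuousMap.smul_apply, smul_eq_mul]
    ring

/-- trigonometric approximation: `r` continuous on the circle -/
theorem trig_approx {r : ℂ → ℝ} (hr : ContinuousOn r (sphere 0 1)) {η : ℝ} (hη : 0 < η) :
    ∃ (N : ℕ) (Q : Polynomial ℂ), ∀ t : ℂ, ‖t‖ = 1 → ‖Q.eval t - t ^ N * (r t : ℂ)‖ < η := by
  have : Fact (0 < 2 * Real.pi) := ⟨by positivity⟩
  have hc : Continuous fun x : AddCircle (2 * Real.pi) =>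
      ((r (AddCircle.toCircle x : ℂ) : ℝ) : ℂ) := by
    refine Complex.continuous_ofReal.comp (hr.comp_continuous ?_ fun x => ?_)
    · exact continuous_subtype_val.comp AddCircle.continuous_toCircle
    · rw [mem_sphere_zero_iff_norm]
      exact Circle.norm_coe _
  let f : C(AddCircle (2 * Real.pi), ℂ) := ⟨_, hc⟩
  have hf : f ∈ closure ((Submodule.span ℂ (Set.range (@fourier (2 * Real.pi))) :
      Submodule ℂ C(AddCircle (2 * Real.pi), ℂ)) : Set C(AddCircle (2 * Real.pi), ℂ)) := by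
    have := span_fourier_closure_eq_top (T := 2 * Real.pi)
    rw [← Submodule.topologicalClosure_coe, this]
    trivial
  obtain ⟨g, hg, hfg⟩ := Metric.mem_closure_iff.1 hf η hη
  obtain ⟨N, Q, hQ⟩ := span_fourier_poly g hg
  refine ⟨N, Q, fun t ht => ?_⟩
  have ht' : t ∈ Submonoid.unitSphere ℂ := by
    rw [← SetLike.mem_coe, Submonoid.coe_unitSphere]
    exact mem_sphere_zero_iff_norm.2 ht
  obtain ⟨x, hx⟩ := (AddCircle.homeomorphCircle (T := 2 * Real.pi) (by positivity)).surjective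
    (⟨t, ht'⟩ : Circle)
  have hx' : (AddCircle.toCircle x : ℂ) = t := by
    rw [← AddCircle.homeomorphCircle_apply (T := 2 * Real.pi) (by positivity), hx]
  have h1 := hQ x
  rw [hx'] at h1
  rw [h1, ← mul_sub, norm_mul, norm_pow, ht, one_pow, one_mul]
  have h2 : dist (f x) (g x) ≤ dist f g := ContinuousMap.dist_apply_le_dist x
  have h3 : f x = ((r t : ℝ) : ℂ) := by
    show ((r (AddCircle.toCircle x : ℂ) : ℝ) : ℂ) = _
    rw [hx']
  rw [dist_comm, dist_eq_norm, h3] at h2
  exact lt_of_le_of_lt h2 hfg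

end Pool.Agent.MPca0fc2.OVN
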