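import Pool.Agent.Lib.MP_ca0fc2_an.OVN.X1
import Pool.Agent.Lib.MP_ca0fc2_an.OVN.X2a

/-! Campaign OVN, X2b: one step of the walk on spheres. -/

set_option autoImplicit false

open Metric Set MeasureTheory Filter Topology Real

namespace Pool.Agent.MPca0fc2.OVN

/-- the average over rotations -/
private theorem x2b_rot (z w : ℂ) :
    circleAverage (fun c => EL (z + c * w)) 0 1 = AL z ‖w‖ := by
  rw [← average_EL z (norm_nonneg w),
    circleAverage_eq_integral_add (f := EL) (c := z) (R := ‖w‖) (Complex.arg w), circleAverage_def]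
  congr 1
  apply intervalIntegral.integral_congr
  intro θ _
  have h := Complex.norm_mul_exp_arg_mul_I w
  have h2 : circleMap z ‖w‖ (θ + Complex.arg w) = z + circleMap 0 1 θ * w := by
    conv_rhs => rw [← h]
    simp only [circleMap, Complex.ofReal_add, add_mul, Complex.exp_add, zero_add,
      Complex.ofReal_one, one_mul]
    ring
  change EL (z + circleMap 0 1 θ * w) = EL (circleMap z ‖w‖ (θ + Complex.arg w))
  rw [h2]

private theorem x2b_int {f : ℂ → ℝ} (hf : Continuous f) : CircleIntegrable f 0 1 :=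
  hf.continuousOn.circleIntegrable zero_le_one

private theorem x2b_AL_lip (z : ℂ) {ρ ρ' : ℝ} (h : 0 ≤ ρ) (h' : 0 ≤ ρ') :
    AL z ρ - AL z ρ' ≤ 2 * |ρ - ρ'| := by
  rw [← average_EL z h, ← average_EL z h', circleAverage_eq_circleAverage_zero_one,
    circleAverage_eq_circleAverage_zero_one (R := ρ')]
  have hc : ∀ r : ℝ, Continuous fun ζ : ℂ => EL ((r : ℂ) * ζ + z) := fun r =>
    EL_cont.comp (by fun_prop)
  rw [← circleAverage_fun_sub (x2b_int (hc ρ)) (x2b_int (hc ρ'))]
  apply circleAverage_mono_on_of_le_circle (x2b_int ((hc ρ).sub (hc ρ')))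
  intro ζ hζ
  rw [abs_one, mem_sphere_zero_iff_norm] at hζ
  have h1 := EL_lip ((ρ : ℂ) * ζ + z) ((ρ' : ℂ) * ζ + z)
  have h2 : (ρ : ℂ) * ζ + z - ((ρ' : ℂ) * ζ + z) = ((ρ - ρ' : ℝ) : ℂ) * ζ := by
    push_cast
    ring
  rw [h2, norm_mul, hζ, mul_one, Complex.norm_real, Real.norm_eq_abs] at h1
  exact (le_abs_self _).trans h1

/-- Fubini for circle averages -/
private theorem x2b_swap {f : ℂ → ℂ → ℝ} (hf : Continuous (Function.uncurry f)) :
    circleAverage (fun c => circleAverage (fun t => f c t) 0 1) 0 1 =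
      circleAverage (fun t => circleAverage (fun c => f c t) 0 1) 0 1 := by
  simp only [circleAverage_def, intervalIntegral.integral_smul]
  congr 2
  rw [intervalIntegral_intervalIntegral_swap]
  have h1 : Continuous (Function.uncurry fun x y : ℝ => f (circleMap 0 1 x) (circleMap 0 1 y)) :=
    hf.comp ((by fun_prop : Continuous fun p : ℝ × ℝ => (circleMap 0 1 p.1, circleMap 0 1 p.2)))
  rw [uIoc_of_le two_pi_pos.le]
  exact (h1.continuousOn.integrableOn_compact (isCompact_Icc.prod isCompact_Icc)).mono_set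
    (prod_mono Ioc_subset_Icc_self Ioc_subset_Icc_self)

private theorem x2b_cont {f : ℂ → ℂ → ℝ} (hf : Continuous (Function.uncurry f)) :
    Continuous fun c => circleAverage (fun t => f c t) 0 1 := by
  simp only [circleAverage_def]
  have h : Continuous (Function.uncurry fun (c : ℂ) (θ : ℝ) => f c (circleMap 0 1 θ)) :=
    hf.comp ((by fun_prop : Continuous fun p : ℂ × ℝ => (p.1, circleMap 0 1 p.2)))
  have h2 : Continuous fun c => ∫ θ in 0..2 * π, f c (circleMap 0 1 θ) :=
    intervalIntegral.continuous_parametric_intervalIntegral_of_continuous' h 0 (2 * π)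
  simp only [smul_eq_mul]
  exact h2.const_mul _

/-- PROOF. `D t = infDist (P t) K > 0` on the closed disc, minimum `d₀`. `trig_approx` for `r t = D t / 2`,
`η = min (d₀ / 4) (ε / 8)`: `| |Q t| - D t / 2 | < η` on the circle, so `|Q t| < D t` there; the compact set
`{|t| ≤ 1, D t ≤ |Q t|}` lies in `|t| ≤ s₀ < 1`; for large `k` `|t ^ k Q t| < D t` on the closed disc, so
`P + e^{iα} X^(k+1) Q` is a `PDisc` for every real `α`. Average over `α` (Fubini; rotation): equals
`circleAverage (fun t => circleAverage EL (P t) |Q t|) 0 1`, and by `EL_lip` the inner average is within `2η` of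
`circleAverage EL (P t) (D t / 2) = AL (P t) (D t / 2)`. So some `α` is good. -/
theorem one_step {K : Set ℂ} (hK : IsCompact K) (hne : K.Nonempty) {z₀ : ℂ} {P : Polynomial ℂ}
    (hP : PDisc K z₀ P) {ε : ℝ} (hε : 0 < ε) : ∃ Q : Polynomial ℂ, PDisc K z₀ Q ∧
      circleAverage (fun t => AL (P.eval t) (infDist (P.eval t) K / 2)) 0 1 - ε ≤
        circleAverage (fun t => EL (Q.eval t)) 0 1 := by
  -- the distance
  have hDc : Continuous fun t : ℂ => infDist (P.eval t) K :=
    (continuous_infDist_pt K).comp P.continuous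
  have hDpos : ∀ t : ℂ, ‖t‖ ≤ 1 → 0 < infDist (P.eval t) K := fun t ht =>
    (hK.isClosed.notMem_iff_infDist_pos hne).1 (hP.2 t ht)
  have hcpt : IsCompact (closedBall (0 : ℂ) 1) := isCompact_closedBall _ _
  obtain ⟨t₁, ht₁, hmin⟩ := hcpt.exists_isMinOn ⟨0, by simp⟩ hDc.continuousOn
  set d₀ := infDist (P.eval t₁) K with hd₀
  have hd₀pos : 0 < d₀ := hDpos t₁ (by simpa using ht₁)
  have hd₀le : ∀ t : ℂ, ‖t‖ ≤ 1 → d₀ ≤ infDist (P.eval t) K := fun t ht =>
    hmin (by simpa using ht)
  -- the trigonometric approximation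
  obtain ⟨N, R, hR⟩ := trig_approx (r := fun t => infDist (P.eval t) K / 2)
    (hDc.div_const 2).continuousOn (η := min (d₀ / 4) (ε / 8)) (by positivity)
  have hRn : ∀ t : ℂ, ‖t‖ = 1 → |‖R.eval t‖ - infDist (P.eval t) K / 2| <
      min (d₀ / 4) (ε / 8) := by
    intro t ht
    have h1 := hR t ht
    have h2 : ‖t ^ N * ((infDist (P.eval t) K / 2 : ℝ) : ℂ)‖ = infDist (P.eval t) K / 2 := by
      rw [norm_mul, norm_pow, ht, one_pow, one_mul, Complex.norm_real, Real.norm_of_nonneg]
      have : 0 ≤ infDist (P.eval t) K := infDist_nonneg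
      linarith
    calc |‖R.eval t‖ - infDist (P.eval t) K / 2|
        = |‖R.eval t‖ - ‖t ^ N * ((infDist (P.eval t) K / 2 : ℝ) : ℂ)‖| := by rw [h2]
      _ ≤ ‖R.eval t - t ^ N * ((infDist (P.eval t) K / 2 : ℝ) : ℂ)‖ := abs_norm_sub_norm_le _ _
      _ < _ := h1
  have hRlt : ∀ t : ℂ, ‖t‖ = 1 → ‖R.eval t‖ < infDist (P.eval t) K := by
    intro t ht
    have h1 := (abs_lt.1 (hRn t ht)).2
    have h2 := min_le_left (d₀ / 4) (ε / 8)
    have h3 := hd₀le t ht.le
    linarith
  -- a large power of `t`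
  obtain ⟨k, hk⟩ : ∃ k : ℕ, ∀ t : ℂ, ‖t‖ ≤ 1 → ‖t‖ ^ (k + 1) * ‖R.eval t‖ <
      infDist (P.eval t) K := by
    have hRc : Continuous fun t : ℂ => ‖R.eval t‖ := R.continuous.norm
    set C : Set ℂ := closedBall (0 : ℂ) 1 ∩ {t | infDist (P.eval t) K ≤ ‖R.eval t‖} with hC
    have hCc : IsCompact C := hcpt.inter_right (isClosed_le hDc hRc)
    rcases C.eq_empty_or_nonempty with h0 | hn
    · refine ⟨0, fun t ht => ?_⟩
      have h1 : ‖R.eval t‖ < infDist (P.eval t) K := by
        by_contra h2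
        have : t ∈ C := ⟨by simpa using ht, not_lt.1 h2⟩
        rw [h0] at this
        exact this
      calc ‖t‖ ^ (0 + 1) * ‖R.eval t‖ ≤ 1 * ‖R.eval t‖ :=
            mul_le_mul_of_nonneg_right (by simpa using ht) (norm_nonneg _)
        _ < _ := by rwa [one_mul]
    · obtain ⟨t₂, ht₂, hmax⟩ := hCc.exists_isMaxOn hn continuous_norm.continuousOn
      have hs : ‖t₂‖ < 1 := by
        have h1 : ‖t₂‖ ≤ 1 := by simpa using ht₂.1
        refine lt_of_le_of_ne h1 fun h2 => ?_
        exact absurd (hRlt t₂ h2) (not_lt.2 ht₂.2)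
      obtain ⟨t₃, ht₃, hB⟩ := hcpt.exists_isMaxOn ⟨0, by simp⟩ hRc.continuousOn
      set B := ‖R.eval t₃‖ with hBdef
      have hB0 : 0 ≤ B := norm_nonneg _
      obtain ⟨k, hk⟩ := exists_pow_lt_of_lt_one (show 0 < d₀ / (B + 1) by positivity) hs
      refine ⟨k, fun t ht => ?_⟩
      by_cases htC : t ∈ C
      · have h1 : ‖t‖ ≤ ‖t₂‖ := hmax htC
        have h2 : ‖R.eval t‖ ≤ B := hB (by simpa using ht)
        have h3 : ‖t‖ ^ (k + 1) ≤ ‖t₂‖ ^ k := by
          calc ‖t‖ ^ (k + 1) ≤ ‖t‖ ^ k := pow_le_pow_of_le_one (norm_nonneg _) ht (Nat.le_succ k)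
            _ ≤ ‖t₂‖ ^ k := pow_le_pow_left₀ (norm_nonneg _) h1 k
        calc ‖t‖ ^ (k + 1) * ‖R.eval t‖ ≤ ‖t₂‖ ^ k * B :=
              mul_le_mul h3 h2 (norm_nonneg _) (by positivity)
          _ ≤ ‖t₂‖ ^ k * (B + 1) := mul_le_mul_of_nonneg_left (by linarith) (by positivity)
          _ < d₀ / (B + 1) * (B + 1) := mul_lt_mul_of_pos_right hk (by positivity)
          _ = d₀ := by field_simp
          _ ≤ _ := hd₀le t ht
      · have h1 : ‖R.eval t‖ < infDist (P.eval t) K := by
          by_contra h2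
          exact htC ⟨by simpa using ht, not_lt.1 h2⟩
        have h2 : ‖t‖ ^ (k + 1) ≤ 1 := pow_le_one₀ (norm_nonneg _) ht
        calc ‖t‖ ^ (k + 1) * ‖R.eval t‖ ≤ 1 * ‖R.eval t‖ :=
              mul_le_mul_of_nonneg_right h2 (norm_nonneg _)
          _ < _ := by rwa [one_mul]
  -- the candidates
  have hcand : ∀ c : ℂ, ‖c‖ = 1 → PDisc K z₀ (P + Polynomial.C c * (Polynomial.X ^ (k + 1) * R)) := by
    intro c hc
    refine ⟨?_, fun t ht hmem => ?_⟩
    · rw [Polynomial.eval_add, Polynomial.eval_mul, Polynomial.eval_mul, Polynomial.eval_pow,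
        Polynomial.eval_X, zero_pow (Nat.succ_ne_zero k), zero_mul, mul_zero, add_zero]
      exact hP.1
    · have h1 := hk t ht
      have h2 : infDist (P.eval t) K ≤ dist (P.eval t)
          ((P + Polynomial.C c * (Polynomial.X ^ (k + 1) * R)).eval t) := infDist_le_dist_of_mem hmem
      have h3 : dist (P.eval t) ((P + Polynomial.C c * (Polynomial.X ^ (k + 1) * R)).eval t) =
          ‖t‖ ^ (k + 1) * ‖R.eval t‖ := by
        rw [dist_eq_norm, Polynomial.eval_add, sub_add_cancel_left, norm_neg, Polynomial.eval_mul,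
          Polynomial.eval_C, Polynomial.eval_mul, Polynomial.eval_pow, Polynomial.eval_X, norm_mul,
          norm_mul, norm_pow, hc, one_mul]
      rw [h3] at h2
      exact absurd h1 (not_lt.2 h2)
  -- the double average
  set f : ℂ → ℂ → ℝ := fun c t => EL (P.eval t + c * (t ^ (k + 1) * R.eval t)) with hf
  have hfc : Continuous (Function.uncurry f) := by
    apply EL_cont.comp
    have h1 : Continuous fun p : ℂ × ℂ => P.eval p.2 := P.continuous.comp continuous_snd
    have h2 : Continuous fun p : ℂ × ℂ => R.eval p.2 := R.continuous.comp continuous_snd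
    exact h1.add (continuous_fst.mul ((continuous_snd.pow _).mul h2))
  by_contra hcon0
  have hcon : ∀ Q : Polynomial ℂ, PDisc K z₀ Q → circleAverage (fun t => EL (Q.eval t)) 0 1 <
      circleAverage (fun t => AL (P.eval t) (infDist (P.eval t) K / 2)) 0 1 - ε :=
    fun Q hQ => not_le.1 fun h => hcon0 ⟨Q, hQ, h⟩
  have h1 : ∀ c : ℂ, ‖c‖ = 1 → circleAverage (fun t => f c t) 0 1 ≤
      circleAverage (fun t => AL (P.eval t) (infDist (P.eval t) K / 2)) 0 1 - ε := by
    intro c hc
    have h2 := hcon _ (hcand c hc)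
    have h3 : (fun t => EL ((P + Polynomial.C c * (Polynomial.X ^ (k + 1) * R)).eval t)) =
        fun t => f c t := by
      funext t
      rw [hf]
      simp only [Polynomial.eval_add, Polynomial.eval_mul, Polynomial.eval_C, Polynomial.eval_pow,
        Polynomial.eval_X]
    rw [h3] at h2
    exact h2.le
  have h2 : circleAverage (fun c => circleAverage (fun t => f c t) 0 1) 0 1 ≤
      circleAverage (fun t => AL (P.eval t) (infDist (P.eval t) K / 2)) 0 1 - ε := by
    apply circleAverage_mono_on_of_le_circle (x2b_int (x2b_cont hfc))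
    intro c hc
    rw [abs_one, mem_sphere_zero_iff_norm] at hc
    exact h1 c hc
  rw [x2b_swap hfc] at h2
  have h3 : (fun t => circleAverage (fun c => f c t) 0 1) =
      fun t => AL (P.eval t) ‖t ^ (k + 1) * R.eval t‖ := by
    funext t
    exact x2b_rot _ _
  rw [h3] at h2
  have hA1 : Continuous fun t : ℂ => AL (P.eval t) (infDist (P.eval t) K / 2) :=
    AL_cont P.continuous (hDc.div_const 2)
  have hA2 : Continuous fun t : ℂ => AL (P.eval t) ‖t ^ (k + 1) * R.eval t‖ :=
    AL_cont P.continuous ((continuous_id.pow _).mul R.continuous).norm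
  have h4 : circleAverage (fun t => AL (P.eval t) (infDist (P.eval t) K / 2) -
      AL (P.eval t) ‖t ^ (k + 1) * R.eval t‖) 0 1 ≤ ε / 2 := by
    apply circleAverage_mono_on_of_le_circle (x2b_int (hA1.sub hA2))
    intro t ht
    rw [abs_one, mem_sphere_zero_iff_norm] at ht
    change AL (P.eval t) (infDist (P.eval t) K / 2) - AL (P.eval t) ‖t ^ (k + 1) * R.eval t‖ ≤ ε / 2
    have h5 : ‖t ^ (k + 1) * R.eval t‖ = ‖R.eval t‖ := by
      rw [norm_mul, norm_pow, ht, one_pow, one_mul]
    rw [h5]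
    have h6 : (0 : ℝ) ≤ infDist (P.eval t) K / 2 := by
      have : 0 ≤ infDist (P.eval t) K := infDist_nonneg
      linarith
    have h7 := x2b_AL_lip (P.eval t) h6 (norm_nonneg (R.eval t))
    have h8 := hRn t ht
    rw [abs_sub_comm] at h8
    have h9 := min_le_right (d₀ / 4) (ε / 8)
    linarith
  rw [circleAverage_fun_sub (x2b_int hA1) (x2b_int hA2)] at h4
  linarith

end Pool.Agent.MPca0fc2.OVN
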