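import Pool.Agent.Lib.MP_ca0fc2_an.Mg.G119

/-! Campaign OVN, row X3: the bound of the averages given by the solutions. -/

set_option autoImplicit false

open Metric Set MeasureTheory Filter Topology Real

namespace Pool.Agent.MPca0fc2.OVN

/-- Jensen's inequality, with an upper bound of the function off its zeros -/
theorem jensen_le {g : ℂ → ℂ} (hg : DifferentiableOn ℂ g (ball 0 1)) (h0 : g 0 ≠ 0) {r : ℝ}
    (hr : 0 < r) (hr1 : r < 1) {b : ℂ → ℝ} (hb : ContinuousOn b (sphere 0 r))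
    (h : ∀ ζ ∈ sphere (0 : ℂ) r, g ζ ≠ 0 → Real.log ‖g ζ‖ ≤ b ζ) :
    Real.log ‖g 0‖ ≤ circleAverage b 0 r := by
  classical
  have habs : |r| = r := abs_of_pos hr
  have hsub : closedBall (0 : ℂ) r ⊆ ball 0 1 := closedBall_subset_ball hr1
  have han : AnalyticOnNhd ℂ g (closedBall 0 |r|) := by
    rw [habs]
    exact fun z hz => (hg.analyticAt (isOpen_ball.mem_nhds (hsub hz)))
  have hsan : AnalyticOnNhd ℂ g (sphere 0 |r|) := han.mono sphere_subset_closedBall
  have hint : CircleIntegrable (fun ζ => Real.log ‖g ζ‖) 0 r :=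
    hsan.meromorphicOn.circleIntegrable_log_norm
  have hbint : CircleIntegrable b 0 r := by
    refine ContinuousOn.circleIntegrable hr.le hb
  have h1 : Real.log ‖g 0‖ ≤ circleAverage (Real.log ‖g ·‖) 0 r := by
    rw [han.circleAverage_log_norm hr.ne' h0]
    refine le_add_of_nonneg_left (finsum_nonneg fun u => ?_)
    by_cases hu : u ∈ closedBall (0 : ℂ) |r|
    · refine mul_nonneg (by exact_mod_cast MeromorphicOn.AnalyticOnNhd.divisor_nonneg han u) ?_
      rw [habs, mem_closedBall_zero_iff] at hu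
      rcases eq_or_ne u 0 with h2 | h2
      · rw [h2]
        simp
      · refine Real.log_nonneg ?_
        rw [zero_sub, norm_neg, ← div_eq_mul_inv, one_le_div (norm_pos_iff.2 h2)]
        exact hu
    · simp [hu]
  -- replace the function at its zeros
  have hcod : {ζ | g ζ ≠ 0} ∈ codiscreteWithin (sphere (0 : ℂ) |r|) := by
    have h2 : g ⁻¹' {0}ᶜ ∈ codiscreteWithin (closedBall (0 : ℂ) |r|) := by
      refine han.preimage_zero_mem_codiscreteWithin h0 (mem_closedBall_self (abs_nonneg r)) ?_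
      exact (convex_closedBall (0 : ℂ) |r|).isConnected ⟨0, mem_closedBall_self (abs_nonneg r)⟩
    exact codiscreteWithin_mono sphere_subset_closedBall h2
  have h2 : circleAverage (Real.log ‖g ·‖) 0 r =
      circleAverage (fun ζ => if g ζ = 0 then b ζ else Real.log ‖g ζ‖) 0 r := by
    refine circleAverage_congr_codiscreteWithin ?_ hr.ne'
    filter_upwards [hcod] with ζ hζ
    rw [if_neg hζ]
  have h3 : CircleIntegrable (fun ζ => if g ζ = 0 then b ζ else Real.log ‖g ζ‖) 0 r := by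
    refine hint.congr_codiscreteWithin ?_
    filter_upwards [hcod] with ζ hζ
    rw [if_neg hζ]
  rw [h2] at h1
  refine h1.trans (circleAverage_mono h3 hbint fun ζ hζ => ?_)
  rw [habs] at hζ
  split_ifs with h4
  · exact le_rfl
  · exact h ζ hζ h4

theorem disc_bound {K : Set ℂ} (hK : IsCompact K) {C : ℝ} (H : HomSol K C) (z₀ : ℂ) :
    ∃ S : ℝ, ∀ P : Polynomial ℂ, PDisc K z₀ P →
      circleAverage (fun t => EL (P.eval t)) 0 1 ≤ S := by
  refine ⟨2 * (Real.log C + Real.log (2 * (1 + ‖z₀‖))), fun P hP => ?_⟩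
  -- a larger disc
  obtain ⟨R, hR, hRK⟩ : ∃ R > 1, ∀ t : ℂ, ‖t‖ < R → P.eval t ∉ K := by
    have h1 : IsOpen {t : ℂ | P.eval t ∉ K} := hK.isClosed.isOpen_compl.preimage P.continuous
    have h2 : closedBall (0 : ℂ) 1 ⊆ {t : ℂ | P.eval t ∉ K} := fun t ht =>
      hP.2 t (mem_closedBall_zero_iff.1 ht)
    obtain ⟨δ, hδ, h3⟩ := (isCompact_closedBall (0 : ℂ) 1).exists_thickening_subset_open h1 h2
    refine ⟨1 + δ, by linarith, fun t ht => h3 ?_⟩
    rw [thickening_closedBall hδ zero_le_one, mem_ball_zero_iff]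
    linarith
  have hR0 : 0 < R := by linarith
  obtain ⟨w, hw⟩ : ∃ w : ℂ → ℂ, w = fun ζ => P.eval ((R : ℂ) * ζ) := ⟨_, rfl⟩
  have hwd : Differentiable ℂ w := by
    rw [hw]
    exact P.differentiable.comp (differentiable_id.const_mul (R : ℂ))
  obtain ⟨u, v, hu, hv, huv, hbd⟩ := H w hwd fun ζ hζ => by
    rw [hw]
    refine hRK _ ?_
    rw [norm_mul, Complex.norm_real, Real.norm_of_nonneg hR0.le]
    rw [mem_ball_zero_iff] at hζ
    nlinarith
  have hw0 : w 0 = z₀ := by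
    rw [hw]
    simp only [mul_zero]
    exact hP.1
  have hb0 : (0 : ℂ) ∈ ball (0 : ℂ) 1 := mem_ball_self one_pos
  have hz : 0 < 2 * (1 + ‖z₀‖) := by positivity
  -- one of the functions is large at the origin
  obtain ⟨g, hg, hg0, hgb⟩ : ∃ g : ℂ → ℂ, DifferentiableOn ℂ g (ball 0 1) ∧
      1 / (2 * (1 + ‖z₀‖)) ≤ ‖g 0‖ ∧ ∀ ζ ∈ ball (0 : ℂ) 1, ‖g ζ‖ * (1 + ‖w ζ‖) ≤ C := by
    by_cases h1 : 1 / (2 * (1 + ‖z₀‖)) ≤ ‖v 0‖
    · exact ⟨v, hv, h1, fun ζ hζ => (hbd ζ hζ).2⟩
    · refine ⟨u, hu, ?_, fun ζ hζ => (hbd ζ hζ).1⟩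
      by_contra h2
      push Not at h1 h2
      have h3 := huv 0 hb0
      rw [hw0] at h3
      have h4 : (1 : ℝ) ≤ ‖z₀‖ * ‖u 0‖ + ‖v 0‖ := by
        calc (1 : ℝ) = ‖z₀ * u 0 + v 0‖ := by rw [h3, norm_one]
          _ ≤ ‖z₀ * u 0‖ + ‖v 0‖ := norm_add_le _ _
          _ = _ := by rw [norm_mul]
      have h5 : ‖z₀‖ * ‖u 0‖ ≤ ‖z₀‖ * (1 / (2 * (1 + ‖z₀‖))) :=
        mul_le_mul_of_nonneg_left h2.le (norm_nonneg _)
      have h6 : ‖z₀‖ * (1 / (2 * (1 + ‖z₀‖))) + 1 / (2 * (1 + ‖z₀‖)) = 1 / 2 := by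
        field_simp
        ring
      linarith
  have hg0' : 0 < ‖g 0‖ := (by positivity : (0 : ℝ) < 1 / (2 * (1 + ‖z₀‖))).trans_le hg0
  have hC : 0 < C := by
    refine (mul_pos hg0' ?_).trans_le (hgb 0 hb0)
    positivity
  have hRinv : 0 < R⁻¹ := inv_pos.2 hR0
  have hRinv1 : R⁻¹ < 1 := inv_lt_one_of_one_lt₀ hR
  have hELc : Continuous EL := by
    unfold EL
    exact (continuous_const.add (continuous_norm.pow 2)).log fun z =>
      (by positivity : (0 : ℝ) < 1 + ‖z‖ ^ 2).ne'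
  have hj := jensen_le hg (norm_pos_iff.1 hg0') hRinv hRinv1
    (b := fun ζ => Real.log C - EL (w ζ) / 2)
    (((continuous_const.sub ((hELc.comp hwd.continuous).div_const 2))).continuousOn)
    (fun ζ hζ hgz => by
      have hζ1 : ζ ∈ ball (0 : ℂ) 1 := by
        rw [mem_sphere_zero_iff_norm] at hζ
        rw [mem_ball_zero_iff, hζ]
        exact hRinv1
      have h1 := hgb ζ hζ1
      have h2 : 0 < ‖g ζ‖ := norm_pos_iff.2 hgz
      have h3 : 0 < 1 + ‖w ζ‖ := by positivity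
      have h4 : Real.log (‖g ζ‖ * (1 + ‖w ζ‖)) ≤ Real.log C := Real.log_le_log (by positivity) h1
      rw [Real.log_mul h2.ne' h3.ne'] at h4
      have h5 : EL (w ζ) ≤ 2 * Real.log (1 + ‖w ζ‖) := by
        unfold EL
        have h6 : (2 : ℝ) * Real.log (1 + ‖w ζ‖) = Real.log ((1 + ‖w ζ‖) ^ 2) := by
          rw [Real.log_pow]
          norm_num
        rw [h6]
        refine Real.log_le_log (by positivity) ?_
        nlinarith [norm_nonneg (w ζ)]
      linarith)
  have hci : CircleIntegrable (fun ζ => EL (w ζ) / 2) 0 R⁻¹ :=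
    ((hELc.comp hwd.continuous).div_const 2).continuousOn.circleIntegrable hRinv.le
  have h1 : circleAverage (fun ζ => Real.log C - EL (w ζ) / 2) 0 R⁻¹ =
      Real.log C - circleAverage (fun t => EL (P.eval t)) 0 1 / 2 := by
    rw [circleAverage_fun_sub (circleIntegrable_const _ _ _) hci, circleAverage_const]
    congr 1
    have h2 : circleAverage (fun ζ => EL (w ζ) / 2) 0 R⁻¹ =
        circleAverage (fun t => EL (P.eval t) / 2) 0 1 := by
      rw [circleAverage_eq_circleAverage_zero_one]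
      congr 1
      funext ζ
      rw [hw]
      simp only [add_zero]
      congr 3
      rw [← mul_assoc, Complex.ofReal_inv, mul_inv_cancel₀ (by exact_mod_cast hR0.ne'), one_mul]
    rw [h2]
    have h3 : (fun t => EL (P.eval t) / 2) = fun t => (2 : ℝ)⁻¹ • EL (P.eval t) := by
      funext t
      rw [smul_eq_mul]
      ring
    rw [h3, circleAverage_fun_smul, smul_eq_mul]
    ring
  rw [h1] at hj
  have h2 : Real.log (1 / (2 * (1 + ‖z₀‖))) ≤ Real.log ‖g 0‖ := Real.log_le_log (by positivity) hg0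
  rw [one_div, Real.log_inv] at h2
  linarith

end Pool.Agent.MPca0fc2.OVN
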