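import Pool.Agent.Lib.MP_ca0fc2_an.OVN.X1
import Pool.Agent.Lib.MP_ca0fc2_an.OVN.X2b

/-! Campaign OVN, row X4: the limit measure. -/

set_option autoImplicit false

open Metric Set MeasureTheory Filter Topology Real

namespace Pool.Agent.MPca0fc2.OVN

/-- the normalized measure of the circle -/
noncomputable def cm : Measure ℝ := ENNReal.ofReal ((2 * π)⁻¹) • volume.restrict (Ioc 0 (2 * π))

instance : IsProbabilityMeasure cm := by
  refine ⟨?_⟩
  rw [cm, Measure.smul_apply, Measure.restrict_apply_univ, Real.volume_Ioc, smul_eq_mul, sub_zero,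
    ← ENNReal.ofReal_mul (by positivity), inv_mul_cancel₀ (by positivity), ENNReal.ofReal_one]

/-- the image of the measure of the circle -/
noncomputable def im (P : Polynomial ℂ) : Measure ℂ := cm.map fun θ => P.eval (circleMap 0 1 θ)

theorem im_meas (P : Polynomial ℂ) : Continuous fun θ => P.eval (circleMap 0 1 θ) :=
  P.continuous.comp (continuous_circleMap 0 1)

instance (P : Polynomial ℂ) : IsProbabilityMeasure (im P) :=
  Measure.isProbabilityMeasure_map (im_meas P).measurable.aemeasurable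

theorem integral_im (P : Polynomial ℂ) {F : ℂ → ℝ} (hF : Measurable F) :
    ∫ z, F z ∂(im P) = circleAverage (fun t => F (P.eval t)) 0 1 := by
  rw [im, integral_map (im_meas P).measurable.aemeasurable hF.aestronglyMeasurable, cm,
    integral_smul_measure, circleAverage_def, intervalIntegral.integral_of_le (by positivity),
    ENNReal.toReal_ofReal (by positivity)]

theorem continuous_avg (P : Polynomial ℂ) {F : ℂ → ℝ} (hF : Continuous F) :
    CircleIntegrable (fun t => F (P.eval t)) 0 1 :=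
  (hF.comp P.continuous).continuousOn.circleIntegrable zero_le_one

theorem integrable_im (P : Polynomial ℂ) {F : ℂ → ℝ} (hF : Continuous F) : Integrable F (im P) := by
  rw [im, integrable_map_measure hF.measurable.aestronglyMeasurable
    (im_meas P).measurable.aemeasurable, cm]
  refine Integrable.smul_measure ?_ ENNReal.ofReal_ne_top
  exact ((hF.comp (im_meas P)).integrableOn_Icc).mono_set Ioc_subset_Icc_self

theorem EL_nonneg (z : ℂ) : 0 ≤ EL z := Real.log_nonneg (by nlinarith [sq_nonneg ‖z‖])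

/-- the pointwise estimate of the truncated potential -/
theorem log_le_trunc {z a : ℂ} (hza : z ≠ a) (δ : ℝ) :
    Real.log ‖z - a‖ ≤ Real.log (min 1 (max ‖z - a‖ δ)) + (EL z / 2 + Real.log (1 + ‖a‖)) := by
  have hr : 0 < ‖z - a‖ := norm_pos_iff.2 (sub_ne_zero.2 hza)
  have h1 : 0 ≤ EL z / 2 + Real.log (1 + ‖a‖) :=
    add_nonneg (div_nonneg (EL_nonneg z) zero_le_two) (Real.log_nonneg (by linarith [norm_nonneg a]))
  rcases le_total ‖z - a‖ 1 with h | h
  · have h2 : Real.log ‖z - a‖ ≤ Real.log (min 1 (max ‖z - a‖ δ)) :=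
      Real.log_le_log hr (le_min h (le_max_left _ _))
    linarith
  · have h2 : min 1 (max ‖z - a‖ δ) = 1 := min_eq_left (h.trans (le_max_left _ _))
    rw [h2, Real.log_one, zero_add]
    have h3 : EL z / 2 + Real.log (1 + ‖a‖) = Real.log (Real.sqrt (1 + ‖z‖ ^ 2) * (1 + ‖a‖)) := by
      rw [Real.log_mul (by positivity) (by positivity), Real.log_sqrt (by positivity), EL]
    rw [h3]
    refine Real.log_le_log hr ((norm_sub_le z a).trans ?_)
    have h4 : ‖z‖ ≤ Real.sqrt (1 + ‖z‖ ^ 2) := Real.le_sqrt_of_sq_le (by linarith)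
    have h5 : 1 ≤ Real.sqrt (1 + ‖z‖ ^ 2) := Real.one_le_sqrt.2 (by nlinarith [sq_nonneg ‖z‖])
    nlinarith [norm_nonneg a]

theorem limit_measure {K : Set ℂ} (hK : IsCompact K) (hne : K.Nonempty) {z₀ : ℂ} (hz₀ : z₀ ∉ K) {S : ℝ}
    (hS : ∀ P : Polynomial ℂ, PDisc K z₀ P → circleAverage (fun t => EL (P.eval t)) 0 1 ≤ S) :
    ∃ (μ : Measure ℂ) (B : ℝ), IsProbabilityMeasure μ ∧ μ Kᶜ = 0 ∧
      ∀ a ∈ K, ∀ δ : ℝ, 0 < δ → δ ≤ 1 → -B ≤ ∫ t, Real.log (min 1 (max ‖t - a‖ δ)) ∂μ := by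
  classical
  obtain ⟨A, hA⟩ : ∃ A : ℂ → ℝ, A = fun z => AL z (infDist z K / 2) := ⟨_, rfl⟩
  have hAc : Continuous A := by
    rw [hA]
    exact AL_cont continuous_id ((continuous_infDist_pt K).div_const 2)
  have hAE : ∀ z, EL z ≤ A z := fun z => by rw [hA]; exact EL_le z _
  have hAE' : ∀ z ∉ K, EL z < A z := fun z hz => by
    rw [hA]
    refine EL_lt z (ne_of_gt ?_)
    have := (hK.isClosed.notMem_iff_infDist_pos hne).1 hz
    positivity
  -- the maximizing sequence
  obtain ⟨𝒜, h𝒜⟩ : ∃ 𝒜 : Set ℝ, 𝒜 = {s | ∃ P : Polynomial ℂ, PDisc K z₀ P ∧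
      s = circleAverage (fun t => EL (P.eval t)) 0 1} := ⟨_, rfl⟩
  have hne𝒜 : 𝒜.Nonempty := by
    rw [h𝒜]
    exact ⟨_, Polynomial.C z₀, ⟨by simp, fun t _ => by simpa using hz₀⟩, rfl⟩
  have hbd𝒜 : BddAbove 𝒜 := by
    rw [h𝒜]
    refine ⟨S, ?_⟩
    rintro s ⟨P, hP, rfl⟩
    exact hS P hP
  have hle : ∀ P : Polynomial ℂ, PDisc K z₀ P → circleAverage (fun t => EL (P.eval t)) 0 1 ≤ sSup 𝒜 :=
    fun P hP => le_csSup hbd𝒜 (by rw [h𝒜]; exact ⟨P, hP, rfl⟩)
  have hseq : ∀ k : ℕ, ∃ P : Polynomial ℂ, PDisc K z₀ P ∧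
      sSup 𝒜 - 1 / ((k : ℝ) + 1) ≤ circleAverage (fun t => EL (P.eval t)) 0 1 := by
    intro k
    have hk : (0 : ℝ) < 1 / ((k : ℝ) + 1) := by positivity
    obtain ⟨s, hs, hs1⟩ := exists_lt_of_lt_csSup hne𝒜 (sub_lt_self (sSup 𝒜) hk)
    rw [h𝒜] at hs
    obtain ⟨P, hP, rfl⟩ := hs
    exact ⟨P, hP, hs1.le⟩
  choose P hP hPS using hseq
  have hAint : ∀ k : ℕ, ∫ z, (A z - EL z) ∂(im (P k)) ≤ 2 / ((k : ℝ) + 1) := by
    intro k
    have hk : (0 : ℝ) < 1 / ((k : ℝ) + 1) := by positivity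
    obtain ⟨Q, hQ, hQ1⟩ := one_step hK hne (hP k) hk
    have h1 := hle Q hQ
    have h2 := hPS k
    rw [integral_sub (integrable_im _ hAc) (integrable_im _ EL_cont), integral_im _ hAc.measurable,
      integral_im _ EL_cont.measurable]
    have h3 : (2 : ℝ) / ((k : ℝ) + 1) = 1 / ((k : ℝ) + 1) + 1 / ((k : ℝ) + 1) := by ring
    rw [h3]
    have h4 : circleAverage (fun t => A ((P k).eval t)) 0 1 =
        circleAverage (fun t => AL ((P k).eval t) (infDist ((P k).eval t) K / 2)) 0 1 := by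
      rw [hA]
    rw [h4]
    linarith
  -- the measures
  obtain ⟨ν, hν⟩ : ∃ ν : ℕ → ProbabilityMeasure ℂ, ν = fun k => ⟨im (P k), inferInstance⟩ := ⟨_, rfl⟩
  have hνm : ∀ k, ((ν k : ProbabilityMeasure ℂ) : Measure ℂ) = im (P k) := fun k => by rw [hν]; rfl
  -- tightness
  obtain ⟨S', hS', hSS'⟩ : ∃ S' : ℝ, 0 < S' ∧ S ≤ S' :=
    ⟨max S 1, lt_of_lt_of_le one_pos (le_max_right _ _), le_max_left _ _⟩
  have htight : IsTightMeasureSet {((μ : ProbabilityMeasure ℂ) : Measure ℂ) | μ ∈ range ν} := by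
    rw [isTightMeasureSet_iff_exists_isCompact_measure_compl_le]
    intro ε hε
    obtain ⟨r, hr0, hrε⟩ := ENNReal.lt_iff_exists_nnreal_btwn.1 hε
    have hr : 0 < (r : ℝ) := by exact_mod_cast hr0
    obtain ⟨M, hM⟩ : ∃ M : ℝ, M = S' / r := ⟨_, rfl⟩
    have hM0 : 0 < M := by rw [hM]; positivity
    refine ⟨closedBall 0 (Real.exp M), isCompact_closedBall _ _, ?_⟩
    rintro _ ⟨μ, ⟨k, rfl⟩, rfl⟩
    rw [hνm]
    have hsub : (closedBall (0 : ℂ) (Real.exp M))ᶜ ⊆ {z | M ≤ EL z} := by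
      intro z hz
      rw [mem_compl_iff, mem_closedBall_zero_iff, not_le] at hz
      show M ≤ Real.log (1 + ‖z‖ ^ 2)
      rw [Real.le_log_iff_exp_le (by positivity)]
      have h1 : 1 ≤ Real.exp M := Real.one_le_exp hM0.le
      nlinarith
    have hmk := mul_meas_ge_le_integral_of_nonneg (μ := im (P k))
      (ae_of_all _ fun z => EL_nonneg z) (integrable_im (P k) EL_cont) M
    rw [integral_im _ EL_cont.measurable] at hmk
    have h1 : (im (P k)).real {z | M ≤ EL z} ≤ r := by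
      have h2 : M * (im (P k)).real {z | M ≤ EL z} ≤ M * r := by
        refine hmk.trans ((hS _ (hP k)).trans (hSS'.trans (le_of_eq ?_)))
        rw [hM, div_mul_cancel₀ _ hr.ne']
      exact le_of_mul_le_mul_left h2 hM0
    calc (im (P k)) (closedBall (0 : ℂ) (Real.exp M))ᶜ ≤ (im (P k)) {z | M ≤ EL z} := measure_mono hsub
      _ = ENNReal.ofReal ((im (P k)).real {z | M ≤ EL z}) := by
          rw [ofReal_measureReal]
      _ ≤ ENNReal.ofReal (r : ℝ) := ENNReal.ofReal_le_ofReal h1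
      _ = r := ENNReal.ofReal_coe_nnreal
      _ ≤ ε := hrε.le
  -- the limit
  obtain ⟨𝒰, h𝒰⟩ : ∃ 𝒰 : Ultrafilter ℕ, (𝒰 : Filter ℕ) ≤ atTop := Ultrafilter.exists_le atTop
  obtain ⟨μ, -, hμ⟩ := (isCompact_closure_of_isTightMeasureSet htight).ultrafilter_le_nhds (𝒰.map ν) (by
    rw [le_principal_iff, Ultrafilter.coe_map]
    exact Filter.mem_map.2 (Filter.univ_mem' fun k => subset_closure (mem_range_self k)))
  have htend : Tendsto ν 𝒰 (𝓝 μ) := hμ
  rw [ProbabilityMeasure.tendsto_iff_forall_integral_tendsto] at htend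
  have hlim : ∀ F : ℂ → ℝ, Continuous F → (∃ C, ∀ z, ‖F z‖ ≤ C) →
      Tendsto (fun k => ∫ z, F z ∂(im (P k))) 𝒰 (𝓝 (∫ z, F z ∂(μ : Measure ℂ))) := by
    rintro F hF ⟨C, hC⟩
    have h1 := htend (BoundedContinuousFunction.ofNormedAddCommGroup F hF C hC)
    refine h1.congr fun k => ?_
    rw [hνm]
    rfl
  -- no mass off `K`
  have hnull : (μ : Measure ℂ) Kᶜ = 0 := by
    obtain ⟨g, hg⟩ : ∃ g : ℂ → ℝ, g = fun z => min 1 (A z - EL z) := ⟨_, rfl⟩
    have hgc : Continuous g := by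
      rw [hg]
      exact continuous_const.min (hAc.sub EL_cont)
    have hg0 : ∀ z, 0 ≤ g z := fun z => by
      rw [hg]
      exact le_min zero_le_one (sub_nonneg.2 (hAE z))
    have hg1 : ∀ z, ‖g z‖ ≤ 1 := fun z => by
      rw [Real.norm_of_nonneg (hg0 z), hg]
      exact min_le_left _ _
    have h1 := hlim g hgc ⟨1, hg1⟩
    have h2 : Tendsto (fun k : ℕ => ∫ z, g z ∂(im (P k))) 𝒰 (𝓝 0) := by
      have h3 : Tendsto (fun k : ℕ => (2 : ℝ) / ((k : ℝ) + 1)) atTop (𝓝 0) :=
        tendsto_const_nhds.div_atTop (tendsto_atTop_add_const_right _ _ tendsto_natCast_atTop_atTop)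
      refine squeeze_zero (fun k => integral_nonneg hg0) (fun k => ?_) (h3.mono_left h𝒰)
      refine (integral_mono (integrable_im _ hgc) (integrable_im _ (hAc.sub EL_cont))
        fun z => ?_).trans (hAint k)
      rw [hg]
      exact min_le_right _ _
    have h3 : ∫ z, g z ∂(μ : Measure ℂ) = 0 := tendsto_nhds_unique h1 h2
    have hgi : Integrable g (μ : Measure ℂ) :=
      Integrable.of_bound hgc.aestronglyMeasurable 1 (ae_of_all _ hg1)
    rw [integral_eq_zero_iff_of_nonneg hg0 hgi] at h3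
    have h4 : (μ : Measure ℂ) {z | g z ≠ 0} = 0 := h3
    refine measure_mono_null (fun z hz => ?_) h4
    have h5 := hAE' z hz
    have h6 : 0 < g z := by
      rw [hg]
      exact lt_min one_pos (sub_pos.2 h5)
    exact h6.ne'
  -- the potentials
  obtain ⟨R, hR⟩ := hK.isBounded.exists_norm_le
  have hd : 0 < infDist z₀ K := (hK.isClosed.notMem_iff_infDist_pos hne).1 hz₀
  refine ⟨μ, -(Real.log (infDist z₀ K) - S / 2 - Real.log (1 + |R|)), inferInstance, hnull,
    fun a ha δ hδ hδ1 => ?_⟩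
  rw [neg_neg]
  have hFc : Continuous fun z : ℂ => Real.log (min 1 (max ‖z - a‖ δ)) := by
    refine Continuous.log (continuous_const.min
      (((continuous_id.sub continuous_const).norm).max continuous_const)) fun z => ?_
    exact (lt_min one_pos (lt_of_lt_of_le hδ (le_max_right _ _))).ne'
  have hFb : ∀ z : ℂ, ‖Real.log (min 1 (max ‖z - a‖ δ))‖ ≤ -Real.log δ := by
    intro z
    have h1 : δ ≤ min 1 (max ‖z - a‖ δ) := le_min hδ1 (le_max_right _ _)
    have h2 : Real.log (min 1 (max ‖z - a‖ δ)) ≤ 0 :=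
      Real.log_nonpos (hδ.le.trans h1) (min_le_left _ _)
    rw [Real.norm_of_nonpos h2]
    exact neg_le_neg (Real.log_le_log hδ h1)
  refine ge_of_tendsto (hlim _ hFc ⟨_, hFb⟩) (Eventually.of_forall fun k => ?_)
  have hk := hP k
  have hPa : ∀ t : ℂ, ‖t‖ ≤ 1 → (P k).eval t ≠ a := fun t ht h => hk.2 t ht (by rw [h]; exact ha)
  have h1 : circleAverage (fun t => Real.log ‖(P k).eval t - a‖) 0 1 = Real.log ‖z₀ - a‖ := by
    have h2 := AnalyticOnNhd.circleAverage_log_norm_of_ne_zero (R := 1) (c := 0)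
      (g := fun t => (P k).eval t - a)
      (fun t _ => ((P k).differentiable.sub_const a).analyticAt t)
      (fun t ht => sub_ne_zero.2 (hPa t (by
        rw [abs_one, mem_closedBall_zero_iff] at ht
        exact ht)))
    rw [h2, hk.1]
  have hci1 : CircleIntegrable (fun t => Real.log ‖(P k).eval t - a‖) 0 1 := by
    refine ContinuousOn.circleIntegrable zero_le_one fun t ht => ?_
    have h3 : (P k).eval t - a ≠ 0 := sub_ne_zero.2 (hPa t (by
      rw [mem_sphere_zero_iff_norm] at ht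
      exact ht.le))
    exact ((((P k).continuous.sub continuous_const).norm).continuousAt.log
      (norm_ne_zero_iff.2 h3)).continuousWithinAt
  have hci2 := continuous_avg (P k) hFc
  have hci3 := continuous_avg (P k) (EL_cont.div_const 2)
  have hci4 : CircleIntegrable (fun t => EL ((P k).eval t) / 2 + Real.log (1 + ‖a‖)) 0 1 :=
    continuous_avg (P k) ((EL_cont.div_const 2).add continuous_const)
  rw [integral_im _ hFc.measurable]
  have h2 : circleAverage (fun t => Real.log ‖(P k).eval t - a‖) 0 1 ≤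
      circleAverage (fun t => Real.log (min 1 (max ‖(P k).eval t - a‖ δ)) +
        (EL ((P k).eval t) / 2 + Real.log (1 + ‖a‖))) 0 1 := by
    refine circleAverage_mono hci1 (hci2.add hci4) fun t ht => ?_
    rw [abs_one, mem_sphere_zero_iff_norm] at ht
    exact log_le_trunc (hPa t ht.le) δ
  rw [circleAverage_fun_add hci2 hci4, circleAverage_fun_add hci3 (circleIntegrable_const _ _ _),
    circleAverage_const, h1] at h2
  have h3 : circleAverage (fun t => EL ((P k).eval t) / 2) 0 1 ≤ S / 2 := by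
    have h4 : (fun t => EL ((P k).eval t) / 2) = fun t => (2 : ℝ)⁻¹ • EL ((P k).eval t) := by
      funext t
      rw [smul_eq_mul]
      ring
    rw [h4, circleAverage_fun_smul, smul_eq_mul]
    linarith [hS _ hk]
  have h5 : Real.log (infDist z₀ K) ≤ Real.log ‖z₀ - a‖ := by
    refine Real.log_le_log hd ?_
    rw [← dist_eq_norm]
    exact infDist_le_dist_of_mem ha
  have h6 : Real.log (1 + ‖a‖) ≤ Real.log (1 + |R|) := by
    refine Real.log_le_log (by positivity) ?_
    linarith [hR a ha, le_abs_self R]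
  linarith

end Pool.Agent.MPca0fc2.OVN
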