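import Pool.Agent.Lib.MP_ca0fc2_an.Mg.G119

/-! Campaign OVN, row X5: from the truncated potentials to the capacity. -/

set_option autoImplicit false

open Metric Set MeasureTheory Filter Topology Real

namespace Pool.Agent.MPca0fc2.OVN

/-- the truncated logarithm is between `log δ` and `0` -/
theorem trunc_le (x : ℝ) {δ : ℝ} (h0 : 0 < δ) (h1 : δ ≤ 1) :
    Real.log δ ≤ Real.log (min 1 (max x δ)) ∧ Real.log (min 1 (max x δ)) ≤ 0 := by
  have h2 : δ ≤ min 1 (max x δ) := le_min h1 (le_max_right _ _)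
  exact ⟨Real.log_le_log h0 h2, Real.log_nonpos (h0.le.trans h2) (min_le_left _ _)⟩

theorem trunc_meas (b : ℂ) (δ : ℝ) :
    Measurable fun t : ℂ => Real.log (min 1 (max ‖t - b‖ δ)) :=
  Real.measurable_log.comp (measurable_const.min ((measurable_norm.comp
    (measurable_id.sub_const b)).max measurable_const))

theorem trunc_int (μ : Measure ℂ) [IsProbabilityMeasure μ] (b : ℂ) {δ : ℝ} (h0 : 0 < δ) (h1 : δ ≤ 1) :
    Integrable (fun t : ℂ => Real.log (min 1 (max ‖t - b‖ δ))) μ := by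
  refine (integrable_const (-Real.log δ)).mono' (trunc_meas b δ).aestronglyMeasurable
    (Eventually.of_forall fun t => ?_)
  obtain ⟨h2, h3⟩ := trunc_le ‖t - b‖ h0 h1
  rw [Real.norm_eq_abs, abs_of_nonpos h3]
  linarith

/-- no atom and the integral of the negative part at a point where the truncated potentials are bounded -/
theorem trunc_limit {μ : Measure ℂ} [IsProbabilityMeasure μ] {B : ℝ} {b : ℂ}
    (h : ∀ δ : ℝ, 0 < δ → δ ≤ 1 → -B ≤ ∫ t, Real.log (min 1 (max ‖t - b‖ δ)) ∂μ) :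
    μ {b} = 0 ∧ Integrable (fun t : ℂ => Real.log (min 1 ‖t - b‖)) μ ∧
      -B ≤ ∫ t, Real.log (min 1 ‖t - b‖) ∂μ := by
  have hB : 0 ≤ B := by
    have h1 := h 1 one_pos le_rfl
    have h2 : ∫ t, Real.log (min 1 (max ‖t - b‖ 1)) ∂μ ≤ 0 :=
      integral_nonpos fun t => (trunc_le ‖t - b‖ one_pos le_rfl).2
    linarith
  -- no atom
  have hat : ∀ δ : ℝ, 0 < δ → δ ≤ 1 → (μ {b}).toReal * (-Real.log δ) ≤ B := by
    intro δ h0 h1
    have h2 := h δ h0 h1
    have h3 : ∫ t, Real.log (min 1 (max ‖t - b‖ δ)) ∂μ ≤ ∫ t, indicator {b} (fun _ => Real.log δ) t ∂μ := by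
      refine integral_mono (trunc_int μ b h0 h1)
        ((integrable_const _).indicator (measurableSet_singleton b)) fun t => ?_
      by_cases ht : t = b
      · subst ht
        simp [h0.le, h1]
      · rw [indicator_of_notMem (by simpa using ht)]
        exact (trunc_le _ h0 h1).2
    rw [integral_indicator (measurableSet_singleton b), setIntegral_const, smul_eq_mul] at h3
    rw [measureReal_def] at h3
    linarith
  have hzero : (μ {b}).toReal = 0 := by
    by_contra hne
    have hpos : 0 < (μ {b}).toReal := lt_of_le_of_ne ENNReal.toReal_nonneg (Ne.symm hne)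
    set x : ℝ := (B + 1) / (μ {b}).toReal with hx
    have hx0 : 0 < x := by positivity
    have h1 := hat (Real.exp (-x)) (Real.exp_pos _) (by
      rw [Real.exp_le_one_iff]; linarith)
    rw [Real.log_exp, neg_neg, hx, mul_div_cancel₀ _ hpos.ne'] at h1
    linarith
  have hb0 : μ {b} = 0 := by
    rcases (ENNReal.toReal_eq_zero_iff _).1 hzero with h1 | h1
    · exact h1
    · exact absurd h1 (measure_ne_top _ _)
  -- Fatou
  have hae : ∀ᵐ t ∂μ, t ≠ b := by
    rw [ae_iff]
    simpa using hb0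
  have hm0 : Measurable fun t : ℂ => Real.log (min 1 ‖t - b‖) :=
    Real.measurable_log.comp (measurable_const.min (measurable_norm.comp (measurable_id.sub_const b)))
  have hfat : ∫⁻ t, ENNReal.ofReal (-Real.log (min 1 ‖t - b‖)) ∂μ ≤ ENNReal.ofReal B := by
    have h1 : ∫⁻ t, liminf (fun n : ℕ => ENNReal.ofReal
        (-Real.log (min 1 (max ‖t - b‖ (1 / ((n : ℝ) + 1)))))) atTop ∂μ ≤
        liminf (fun n : ℕ => ∫⁻ t, ENNReal.ofReal
          (-Real.log (min 1 (max ‖t - b‖ (1 / ((n : ℝ) + 1))))) ∂μ) atTop :=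
      lintegral_liminf_le fun n => (trunc_meas b _).neg.ennreal_ofReal
    have h2 : ∫⁻ t, ENNReal.ofReal (-Real.log (min 1 ‖t - b‖)) ∂μ =
        ∫⁻ t, liminf (fun n : ℕ => ENNReal.ofReal
        (-Real.log (min 1 (max ‖t - b‖ (1 / ((n : ℝ) + 1)))))) atTop ∂μ := by
      refine lintegral_congr_ae ?_
      filter_upwards [hae] with t ht
      have hpos : 0 < ‖t - b‖ := norm_pos_iff.2 (sub_ne_zero.2 ht)
      have h3 : Tendsto (fun n : ℕ => ENNReal.ofReal
          (-Real.log (min 1 (max ‖t - b‖ (1 / ((n : ℝ) + 1)))))) atTop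
          (𝓝 (ENNReal.ofReal (-Real.log (min 1 ‖t - b‖)))) := by
        refine tendsto_const_nhds.congr' ?_
        filter_upwards [(tendsto_one_div_add_atTop_nhds_zero_nat (𝕜 := ℝ)).eventually_le_const hpos] with n hn
        rw [max_eq_left hn]
      exact h3.liminf_eq.symm
    rw [h2]
    refine h1.trans ?_
    refine liminf_le_of_frequently_le' (Frequently.of_forall fun n => ?_)
    have hn0 : (0 : ℝ) < 1 / ((n : ℝ) + 1) := by positivity
    have hn1 : 1 / ((n : ℝ) + 1) ≤ 1 := by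
      rw [div_le_one (by positivity)]
      have : (0 : ℝ) ≤ n := Nat.cast_nonneg n
      linarith
    have hI : Integrable (fun t : ℂ => -Real.log (min 1 (max ‖t - b‖ (1 / ((n : ℝ) + 1))))) μ :=
      (trunc_int μ b hn0 hn1).neg
    rw [← ofReal_integral_eq_lintegral_ofReal hI
      (Eventually.of_forall fun t => by
        have := (trunc_le ‖t - b‖ hn0 hn1).2
        show 0 ≤ -Real.log (min 1 (max ‖t - b‖ (1 / ((n : ℝ) + 1))))
        linarith)]
    refine ENNReal.ofReal_le_ofReal ?_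
    have h3 := h _ hn0 hn1
    rw [integral_neg]
    linarith
  have hnn : ∀ t : ℂ, 0 ≤ -Real.log (min 1 ‖t - b‖) := by
    intro t
    have : Real.log (min 1 ‖t - b‖) ≤ 0 :=
      Real.log_nonpos (le_min zero_le_one (norm_nonneg _)) (min_le_left _ _)
    linarith
  have hint : Integrable (fun t : ℂ => -Real.log (min 1 ‖t - b‖)) μ := by
    refine ⟨hm0.neg.aestronglyMeasurable, ?_⟩
    rw [hasFiniteIntegral_iff_ofReal (Eventually.of_forall hnn)]
    exact hfat.trans_lt ENNReal.ofReal_lt_top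
  refine ⟨hb0, by simpa using hint.neg, ?_⟩
  have h1 : ∫ t, -Real.log (min 1 ‖t - b‖) ∂μ ≤ B := by
    rw [integral_eq_lintegral_of_nonneg_ae (Eventually.of_forall hnn) hm0.neg.aestronglyMeasurable]
    exact ENNReal.toReal_le_of_le_ofReal hB hfat
  rw [integral_neg] at h1
  linarith

/-- PROOF. For `t ∈ ℂ` take `t' ∈ K` nearest to `t`: `|t' - a| ≤ 2 |t - a|` on `K`, so the truncated potentials at `t` are
`≥ -B - log 2`. No atom at `t` (`μ {t} log δ ≥ -B'`). Monotone convergence `δ → 0`; `log⁺ |t - a|` is bounded on `K`. -/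
theorem capPos_of_trunc {K : Set ℂ} (hK : IsCompact K) (hne : K.Nonempty) {μ : Measure ℂ}
    [IsProbabilityMeasure μ] (h0 : μ Kᶜ = 0) {B : ℝ}
    (h : ∀ a ∈ K, ∀ δ : ℝ, 0 < δ → δ ≤ 1 → -B ≤ ∫ t, Real.log (min 1 (max ‖t - a‖ δ)) ∂μ) :
    OV.CapPos K := by
  refine ⟨hK, μ, B + Real.log 2, inferInstance, h0, fun t => ?_⟩
  obtain ⟨b, hb, hbd⟩ := hK.exists_infDist_eq_dist hne t
  obtain ⟨hb0, hi, hl⟩ := trunc_limit (h b hb)
  obtain ⟨R, hR⟩ := hK.isBounded.exists_norm_le
  have hae : ∀ᵐ a ∂μ, a ∈ K ∧ a ≠ b := by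
    have h1 : ∀ᵐ a ∂μ, a ∈ K := by
      rw [ae_iff]
      exact h0
    have h2 : ∀ᵐ a ∂μ, a ≠ b := by
      rw [ae_iff]
      simpa using hb0
    exact h1.and h2
  have hlow : ∀ᵐ a ∂μ, Real.log (min 1 ‖a - b‖) - Real.log 2 ≤ Real.log ‖t - a‖ := by
    filter_upwards [hae] with a ha
    have hab : 0 < ‖a - b‖ := norm_pos_iff.2 (sub_ne_zero.2 ha.2)
    have h1 : ‖a - b‖ ≤ 2 * ‖t - a‖ := by
      have h2 : dist t b ≤ dist t a := by
        rw [← hbd]
        exact infDist_le_dist_of_mem ha.1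
      have h3 : dist a b ≤ dist a t + dist t b := dist_triangle _ _ _
      rw [dist_comm a t] at h3
      rw [dist_eq_norm, dist_eq_norm] at h2
      rw [dist_eq_norm, dist_eq_norm, dist_eq_norm] at h3
      linarith
    have hta : 0 < ‖t - a‖ := by linarith
    have h4 : Real.log (min 1 ‖a - b‖) ≤ Real.log (2 * ‖t - a‖) :=
      Real.log_le_log (lt_min one_pos hab) ((min_le_right _ _).trans h1)
    rw [Real.log_mul two_ne_zero hta.ne'] at h4
    linarith
  have hup : ∀ᵐ a ∂μ, Real.log ‖t - a‖ ≤ ‖t‖ + |R| := by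
    filter_upwards [hae] with a ha
    have h4 := Real.log_le_self (norm_nonneg (t - a))
    have h5 := norm_sub_le t a
    have h6 := hR a ha.1
    linarith [le_abs_self R]
  have hm : Measurable fun a : ℂ => Real.log ‖t - a‖ :=
    Real.measurable_log.comp (measurable_norm.comp (measurable_const.sub measurable_id))
  have hint : Integrable (fun a : ℂ => Real.log ‖t - a‖) μ := by
    refine Integrable.mono' (g := fun a => (‖t‖ + |R| + Real.log 2) + -Real.log (min 1 ‖a - b‖))
      ((integrable_const _).add hi.neg) hm.aestronglyMeasurable ?_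
    filter_upwards [hlow, hup] with a h1 h2
    rw [Real.norm_eq_abs, abs_le]
    have h3 : Real.log (min 1 ‖a - b‖) ≤ 0 :=
      Real.log_nonpos (le_min zero_le_one (norm_nonneg _)) (min_le_left _ _)
    have h4 : 0 ≤ Real.log 2 := Real.log_nonneg one_le_two
    have h5 := norm_nonneg t
    have h6 := abs_nonneg R
    constructor <;> linarith
  refine ⟨hint, ?_⟩
  have h1 : ∫ a, (Real.log (min 1 ‖a - b‖) - Real.log 2) ∂μ ≤ ∫ a, Real.log ‖t - a‖ ∂μ :=
    integral_mono_ae (hi.sub (integrable_const _)) hint hlow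
  rw [integral_sub hi (integrable_const _), integral_const, smul_eq_mul, probReal_univ,
    one_mul] at h1
  linarith

end Pool.Agent.MPca0fc2.OVN
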