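import Pool.Agent.Lib.MP_ca0fc2_an.Mg.G114
import Pool.Agent.Lib.MP_ca0fc2_an.OVN.X3
import Pool.Agent.Lib.MP_ca0fc2_an.OVN.X4
import Pool.Agent.Lib.MP_ca0fc2_an.OVN.X5

/-! Campaign OVN, row X6: assembly. -/

set_option autoImplicit false

open Metric Set MeasureTheory Filter Topology Real

namespace Pool.Agent.MPca0fc2.OVN

/-- a point has capacity zero -/
theorem not_capPos_singleton (a : ℂ) : ¬ OV.CapPos {a} := by
  rintro ⟨hK, μ, B, hμ, h0, hB⟩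
  have h1 := OV.pot_noatom hK h0 hB a
  have h2 : μ univ ≤ μ {a} + μ ({a} : Set ℂ)ᶜ := by
    rw [← union_compl_self ({a} : Set ℂ)]
    exact measure_union_le _ _
  rw [measure_univ, h1, h0, add_zero] at h2
  exact absurd h2 (by simp)

theorem capPos_of_homSol_nonempty {K : Set ℂ} (hK : IsCompact K) (hne : K.Nonempty) {C : ℝ}
    (H : HomSol K C) : OV.CapPos K := by
  obtain ⟨z₀, hz₀⟩ : ∃ z₀, z₀ ∉ K := by
    by_contra hcon
    push Not at hcon
    exact noncompact_univ ℂ (by rwa [eq_univ_of_forall hcon] at hK)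
  obtain ⟨S, hS⟩ := disc_bound hK H z₀
  obtain ⟨μ, B, hμ, h0, hB⟩ := limit_measure hK hne hz₀ hS
  exact capPos_of_trunc hK hne h0 hB

/-- **Necessity.** If all holomorphic maps of the disc into the complement of `K` have solutions with the
pointwise bound `C`, then `K` has positive capacity. -/
theorem capPos_of_homSol' {K : Set ℂ} (hK : IsCompact K) {C : ℝ} (H : HomSol K C) : OV.CapPos K := by
  rcases K.eq_empty_or_nonempty with h | h
  · exfalso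
    have h1 : HomSol {0} C := fun w hw _ => H w hw fun ζ _ h2 => by rw [h] at h2; exact h2
    exact not_capPos_singleton 0
      (capPos_of_homSol_nonempty isCompact_singleton (singleton_nonempty 0) h1)
  · exact capPos_of_homSol_nonempty hK h H

/-- the embedding of the line -/
noncomputable def emb (n : ℕ) (ζ : ℂ) : EuclideanSpace ℂ (Fin (n + 1)) := EuclideanSpace.single 0 ζ

theorem emb_apply (n : ℕ) (ζ : ℂ) : emb n ζ 0 = ζ := by
  simp [emb]

theorem norm_emb (n : ℕ) (ζ : ℂ) : ‖emb n ζ‖ = ‖ζ‖ := by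
  simp [emb]

theorem emb_diff (n : ℕ) : Differentiable ℂ (emb n) := by
  have h : emb n = fun ζ => ζ • emb n 1 := by
    funext ζ
    ext i
    rcases eq_or_ne i 0 with h | h
    · rw [h]
      simp [emb]
    · simp [emb, h]
  rw [h]
  exact differentiable_id.smul_const _

theorem coord_diff (n : ℕ) : Differentiable ℂ fun z : EuclideanSpace ℂ (Fin (n + 1)) => z 0 :=
  (EuclideanSpace.proj (𝕜 := ℂ) (0 : Fin (n + 1))).differentiable

theorem norm_coord (n : ℕ) (z : EuclideanSpace ℂ (Fin (n + 1))) : ‖z 0‖ ≤ ‖z‖ :=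
  PiLp.norm_apply_le z 0

/-- the same for bounded data on the unit ball of `ℂⁿ`, and the bound `C / |f|` -/
theorem capPos_of_ball {K : Set ℂ} (hK : IsCompact K) {n : ℕ} (hn : 1 ≤ n) {C : ℝ}
    (H : ∀ f : Fin 2 → EuclideanSpace ℂ (Fin n) → ℂ, (∀ j, DifferentiableOn ℂ (f j) (ball 0 1)) →
      (∀ j, ∃ M, ∀ z ∈ ball (0 : EuclideanSpace ℂ (Fin n)) 1, ‖f j z‖ ≤ M) →
      (∀ z ∈ ball (0 : EuclideanSpace ℂ (Fin n)) 1, 1 ≤ ∑ j, ‖f j z‖ ^ 2) →
      (∀ a ∈ K, ∀ z ∈ ball (0 : EuclideanSpace ℂ (Fin n)) 1, f 1 z ≠ 0 → f 0 z ≠ a * f 1 z) →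
      ∃ h : Fin 2 → EuclideanSpace ℂ (Fin n) → ℂ, (∀ j, DifferentiableOn ℂ (h j) (ball 0 1)) ∧
        (∀ j, ∀ z ∈ ball (0 : EuclideanSpace ℂ (Fin n)) 1, ‖h j z‖ ≤ C / √(∑ k, ‖f k z‖ ^ 2)) ∧
        ∀ z ∈ ball (0 : EuclideanSpace ℂ (Fin n)) 1, ∑ j, f j z * h j z = 1) : OV.CapPos K := by
  obtain ⟨n, rfl⟩ : ∃ m, n = m + 1 := ⟨n - 1, by omega⟩
  refine capPos_of_homSol' hK (C := 2 * C) fun w hw hwK => ?_
  have hball : ∀ z : EuclideanSpace ℂ (Fin (n + 1)),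
      z ∈ ball (0 : EuclideanSpace ℂ (Fin (n + 1))) 1 → z 0 ∈ ball (0 : ℂ) 1 := fun z hz => by
    rw [mem_ball_zero_iff] at hz ⊢
    exact (norm_coord n z).trans_lt hz
  have hemb : MapsTo (emb n) (ball (0 : ℂ) 1) (ball 0 1) := fun ζ hζ => by
    rw [mem_ball_zero_iff] at hζ ⊢
    rwa [norm_emb]
  obtain ⟨M, hM⟩ : ∃ M, ∀ ζ ∈ ball (0 : ℂ) 1, ‖w ζ‖ ≤ M := by
    obtain ⟨M, hM⟩ := (isCompact_closedBall (0 : ℂ) 1).exists_bound_of_continuousOn
      hw.continuous.continuousOn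
    exact ⟨M, fun ζ hζ => hM ζ (ball_subset_closedBall hζ)⟩
  obtain ⟨h, h1, h2, h3⟩ := H ![fun z => w (z 0), fun _ => 1] (fun j => by
      fin_cases j
      · exact (hw.comp (coord_diff n)).differentiableOn
      · exact differentiableOn_const _) (fun j => by
      fin_cases j
      · exact ⟨M, fun z hz => hM _ (hball z hz)⟩
      · exact ⟨1, fun z _ => by simp⟩) (fun z _ => by
      rw [Fin.sum_univ_two]
      simp) (fun a ha z hz _ h4 => by
      refine hwK _ (hball z hz) ?_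
      have h5 : w (z 0) = a * 1 := h4
      rw [h5, mul_one]
      exact ha)
  refine ⟨fun ζ => h 0 (emb n ζ), fun ζ => h 1 (emb n ζ),
    (h1 0).comp (emb_diff n).differentiableOn hemb,
    (h1 1).comp (emb_diff n).differentiableOn hemb, fun ζ hζ => ?_, fun ζ hζ => ?_⟩
  · have h4 := h3 _ (hemb hζ)
    rw [Fin.sum_univ_two] at h4
    simpa [emb_apply] using h4
  · have h4 : ∀ j, ‖h j (emb n ζ)‖ * (1 + ‖w ζ‖) ≤ 2 * C := fun j => by
      have h5 := h2 j _ (hemb hζ)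
      rw [Fin.sum_univ_two] at h5
      have h6 : ((![fun z : EuclideanSpace ℂ (Fin (n + 1)) => w (z 0), fun _ => 1] : Fin 2 →
          EuclideanSpace ℂ (Fin (n + 1)) → ℂ) 0) (emb n ζ) = w ζ := by
        simp [emb_apply]
      have h7 : ((![fun z : EuclideanSpace ℂ (Fin (n + 1)) => w (z 0), fun _ => 1] : Fin 2 →
          EuclideanSpace ℂ (Fin (n + 1)) → ℂ) 1) (emb n ζ) = 1 := by
        simp
      rw [h6, h7, norm_one] at h5
      have h8 : 0 < √(‖w ζ‖ ^ 2 + 1 ^ 2) := Real.sqrt_pos.2 (by positivity)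
      rw [le_div_iff₀ h8] at h5
      have h9 : 1 + ‖w ζ‖ ≤ 2 * √(‖w ζ‖ ^ 2 + 1 ^ 2) := by
        have h10 : ‖w ζ‖ ≤ √(‖w ζ‖ ^ 2 + 1 ^ 2) := Real.le_sqrt_of_sq_le (by linarith)
        have h11 : 1 ≤ √(‖w ζ‖ ^ 2 + 1 ^ 2) :=
          Real.le_sqrt_of_sq_le (by nlinarith [norm_nonneg (w ζ)])
        linarith
      calc ‖h j (emb n ζ)‖ * (1 + ‖w ζ‖) ≤ ‖h j (emb n ζ)‖ * (2 * √(‖w ζ‖ ^ 2 + 1 ^ 2)) :=
            mul_le_mul_of_nonneg_left h9 (norm_nonneg _)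
        _ = 2 * (‖h j (emb n ζ)‖ * √(‖w ζ‖ ^ 2 + 1 ^ 2)) := by ring
        _ ≤ 2 * C := by linarith
    exact ⟨h4 0, h4 1⟩

end Pool.Agent.MPca0fc2.OVN
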