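import Pool.Agent.Lib.MP_ca0fc2_an.OV.Y1

/-! Campaign OVN, row Y1: the cut off functions for sets which are not removable, with a constant which depends
only on the set. -/

set_option autoImplicit false

open Metric Set MeasureTheory Filter Topology

namespace Pool.Agent.MPca0fc2.OVN

open Pool.Agent.MPca0fc2.OV

/-- the case of a function `Y` which is nowhere identically zero -/
private theorem cut_unif_aux {E : Type*} [NormedAddCommGroup E] [NormedSpace ℂ E] [FiniteDimensional ℂ E]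
    {W : Set E} (hW : IsOpen W) {X Y : E → ℂ} (hX : DifferentiableOn ℂ X W)
    (hY : DifferentiableOn ℂ Y W) (hd : ∀ z ∈ W, z ∈ closure {w ∈ W | Y w ≠ 0}) {K : Set ℂ}
    (hKc : IsCompact K) {C : ℝ} {u v : ℂ → ℂ} (hu : DifferentiableOn ℂ u Kᶜ)
    (h1 : ∀ t ∈ Kᶜ, t * u t + 1 * v t = 1)
    (h2 : ∀ t ∈ Kᶜ, ‖u t‖ * (‖t‖ + ‖(1 : ℂ)‖) ≤ C ∧ ‖v t‖ * (‖t‖ + ‖(1 : ℂ)‖) ≤ C)
    (h : ∀ a ∈ K, ∀ z ∈ W, Y z ≠ 0 → X z - a * Y z ≠ 0) : Cut W X Y |C| := by
  have hKo : IsOpen Kᶜ := hKc.isClosed.isOpen_compl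
  have hmap : ∀ z ∈ W, Y z ≠ 0 → X z / Y z ∈ Kᶜ := by
    intro z hz hYz hcon
    refine h _ hcon z hz hYz ?_
    rw [div_mul_cancel₀ _ hYz, sub_self]
  have hnn : ∀ t ∈ Kᶜ, ‖t * u t‖ * (‖t‖ + 1) ≤ C * ‖t‖ ∧ ‖1 - t * u t‖ * (‖t‖ + 1) ≤ C := by
    intro t ht
    have h3 := (h2 t ht).1
    have h4 := (h2 t ht).2
    rw [norm_one] at h3 h4
    constructor
    · rw [norm_mul]
      calc ‖t‖ * ‖u t‖ * (‖t‖ + 1) = (‖u t‖ * (‖t‖ + 1)) * ‖t‖ := by ring
        _ ≤ C * ‖t‖ := mul_le_mul_of_nonneg_right h3 (norm_nonneg _)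
    · have h5 : 1 - t * u t = v t := by
        have h6 := h1 t ht
        rw [one_mul] at h6
        linear_combination -h6
      rw [h5]
      exact h4
  have hbd : ∀ z ∈ W, Y z ≠ 0 → ‖X z / Y z * u (X z / Y z)‖ * (‖X z‖ + ‖Y z‖) ≤ C * ‖X z‖ ∧
      ‖1 - X z / Y z * u (X z / Y z)‖ * (‖X z‖ + ‖Y z‖) ≤ C * ‖Y z‖ := by
    intro z hz hYz
    obtain ⟨h3, h4⟩ := hnn _ (hmap z hz hYz)
    have hY0 : 0 < ‖Y z‖ := norm_pos_iff.2 hYz
    have h5 : (‖X z / Y z‖ + 1) * ‖Y z‖ = ‖X z‖ + ‖Y z‖ := by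
      rw [norm_div]
      field_simp
    rw [← h5]
    constructor
    · calc ‖X z / Y z * u (X z / Y z)‖ * ((‖X z / Y z‖ + 1) * ‖Y z‖)
          = (‖X z / Y z * u (X z / Y z)‖ * (‖X z / Y z‖ + 1)) * ‖Y z‖ := by ring
        _ ≤ (C * ‖X z / Y z‖) * ‖Y z‖ := mul_le_mul_of_nonneg_right h3 hY0.le
        _ = C * ‖X z‖ := by
            rw [norm_div]
            field_simp
    · calc ‖1 - X z / Y z * u (X z / Y z)‖ * ((‖X z / Y z‖ + 1) * ‖Y z‖)
          = (‖1 - X z / Y z * u (X z / Y z)‖ * (‖X z / Y z‖ + 1)) * ‖Y z‖ := by ring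
        _ ≤ C * ‖Y z‖ := mul_le_mul_of_nonneg_right h4 hY0.le
  have hC0 : ∀ z ∈ W, Y z ≠ 0 → ‖X z / Y z * u (X z / Y z)‖ ≤ |C| := by
    intro z hz hYz
    have h3 := (hbd z hz hYz).1
    have hY0 : 0 < ‖Y z‖ := norm_pos_iff.2 hYz
    have hs : 0 < ‖X z‖ + ‖Y z‖ := by linarith [norm_nonneg (X z)]
    refine le_of_mul_le_mul_right (h3.trans ?_) hs
    have h4 : C * ‖X z‖ ≤ |C| * ‖X z‖ := mul_le_mul_of_nonneg_right (le_abs_self C) (norm_nonneg _)
    have h5 : |C| * ‖X z‖ ≤ |C| * (‖X z‖ + ‖Y z‖) :=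
      mul_le_mul_of_nonneg_left (by linarith) (abs_nonneg C)
    linarith
  obtain ⟨ψ, hψ, hψe⟩ := riemann_ext hW hY hd (φ := fun z => X z / Y z * u (X z / Y z))
    (by
      intro z hz
      refine DifferentiableAt.differentiableWithinAt ?_
      have h3 : DifferentiableAt ℂ (fun z => X z / Y z) z := by
        simp only [div_eq_mul_inv]
        exact (hX.differentiableAt (hW.mem_nhds hz.1)).mul
          ((hY.differentiableAt (hW.mem_nhds hz.1)).inv hz.2)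
      have h4 : DifferentiableAt ℂ u (X z / Y z) :=
        hu.differentiableAt (hKo.mem_nhds (hmap z hz.1 hz.2))
      exact h3.mul (DifferentiableAt.comp (g := u) z h4 h3))
    (fun z _ => ⟨1, one_pos, |C|, fun w hw _ h0 => hC0 w hw h0⟩)
  -- the bounds extend by continuity
  have hlim : ∀ z ∈ W, ∀ p : E → ℝ, ContinuousOn p W → (∀ w ∈ W, Y w ≠ 0 → p w ≤ 0) → p z ≤ 0 := by
    intro z hz p hp hpw
    have h3 : (𝓝[{w ∈ W | Y w ≠ 0}] z).NeBot := mem_closure_iff_nhdsWithin_neBot.1 (hd z hz)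
    have h4 : Tendsto p (𝓝[{w ∈ W | Y w ≠ 0}] z) (𝓝 (p z)) :=
      ((hp z hz).mono_left (nhdsWithin_mono z fun w hw => hw.1))
    refine le_of_tendsto h4 ?_
    filter_upwards [self_mem_nhdsWithin] with w hw
    exact hpw w hw.1 hw.2
  have hXc := hX.continuousOn
  have hYc := hY.continuousOn
  have hψc := hψ.continuousOn
  refine ⟨ψ, hψ, fun z hz => ⟨?_, ?_, ?_⟩⟩
  · have h3 := hlim z hz (fun z => ‖ψ z‖ - |C|) (hψc.norm.sub continuousOn_const)
      fun w hw h0 => by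
        rw [hψe w hw h0]
        linarith [hC0 w hw h0]
    linarith
  · have h3 := hlim z hz (fun z => ‖ψ z‖ * (‖X z‖ + ‖Y z‖) - |C| * ‖X z‖)
      ((hψc.norm.mul (hXc.norm.add hYc.norm)).sub (continuousOn_const.mul hXc.norm))
      fun w hw h0 => by
        rw [hψe w hw h0]
        have h4 := (hbd w hw h0).1
        have h5 : C * ‖X w‖ ≤ |C| * ‖X w‖ :=
          mul_le_mul_of_nonneg_right (le_abs_self C) (norm_nonneg _)
        linarith
    linarith
  · have h3 := hlim z hz (fun z => ‖1 - ψ z‖ * (‖X z‖ + ‖Y z‖) - |C| * ‖Y z‖)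
      (((continuousOn_const.sub hψc).norm.mul (hXc.norm.add hYc.norm)).sub
        (continuousOn_const.mul hYc.norm))
      fun w hw h0 => by
        rw [hψe w hw h0]
        have h4 := (hbd w hw h0).2
        have h5 : C * ‖Y w‖ ≤ |C| * ‖Y w‖ :=
          mul_le_mul_of_nonneg_right (le_abs_self C) (norm_nonneg _)
        linarith
    linarith

/-- If `X / Y` omits (where `Y` is not zero) a compact set `K` which is not removable for bounded holomorphic
functions, then the pair `X, Y` can be split, with a constant which depends only on `K`. -/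
theorem cut_removable_unif {K : Set ℂ} (hK : NonRem K) : ∃ C : ℝ, ∀ {n : ℕ}
    (W : Set (EuclideanSpace ℂ (Fin n))) (X Y : EuclideanSpace ℂ (Fin n) → ℂ), IsOpen W →
    DifferentiableOn ℂ X W → DifferentiableOn ℂ Y W →
    (∀ a ∈ K, ∀ z ∈ W, Y z ≠ 0 → X z ≠ a * Y z) → Cut W X Y C := by
  classical
  obtain ⟨C, u, v, hu, hv, h1, h2⟩ := pair_removable (E := ℂ) (W := Kᶜ) (x := fun t => t)
    (y := fun _ => 1) differentiableOn_id (differentiableOn_const _) hK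
    (fun a ha t ht h0 => ht (by rw [mul_one, sub_eq_zero] at h0; rw [h0]; exact ha))
  refine ⟨max |C| 1, fun {n} W X Y hW hX hY h => ?_⟩
  obtain ⟨W₁, hW₁⟩ : ∃ W₁ : Set (EuclideanSpace ℂ (Fin n)), W₁ = {z | z ∈ W ∧ z ∈ closure {w ∈ W | Y w ≠ 0}} := ⟨_, rfl⟩
  have ho : IsOpen W₁ := by
    rw [hW₁]
    exact isOpen_supp hW hY
  have hsub : W₁ ⊆ W := by
    rw [hW₁]
    exact fun z hz => hz.1
  obtain ⟨φ, hφ, hb⟩ := cut_unif_aux ho (hX.mono hsub) (hY.mono hsub) (fun z hz => by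
    have h1 : z ∈ closure {w ∈ W | Y w ≠ 0} := by
      rw [hW₁] at hz
      exact hz.2
    have h2 : {w ∈ W | Y w ≠ 0} ⊆ {w ∈ W₁ | Y w ≠ 0} := by
      intro w hw
      refine ⟨?_, hw.2⟩
      rw [hW₁]
      exact ⟨hw.1, subset_closure hw⟩
    exact closure_mono h2 h1) hK.1 hu h1 h2 fun a ha z hz h0 h1 =>
      h a ha z (hsub hz) h0 (sub_eq_zero.1 h1)
  have hZ : ∀ z ∈ W, z ∉ W₁ → ∀ᶠ w in 𝓝 z, w ∉ W₁ := by
    intro z hz hz1
    rw [hW₁] at hz1 ⊢
    have h1 : z ∈ (closure {w ∈ W | Y w ≠ 0})ᶜ := fun h => hz1 ⟨hz, h⟩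
    filter_upwards [isClosed_closure.isOpen_compl.mem_nhds h1] with w hw hw'
    exact hw hw'.2
  obtain ⟨Φ, hΦ⟩ : ∃ Φ : EuclideanSpace ℂ (Fin n) → ℂ, ∀ z, Φ z = if z ∈ W₁ then φ z else 1 := ⟨_, fun z => rfl⟩
  refine ⟨Φ, fun z hz => ?_, fun z hz => ?_⟩
  · refine DifferentiableAt.differentiableWithinAt ?_
    by_cases h1 : z ∈ W₁
    · refine (hφ.differentiableAt (ho.mem_nhds h1)).congr_of_eventuallyEq ?_
      filter_upwards [ho.mem_nhds h1] with w hw
      rw [hΦ, if_pos hw]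
    · refine (differentiableAt_const (1 : ℂ)).congr_of_eventuallyEq ?_
      filter_upwards [hZ z hz h1] with w hw
      rw [hΦ, if_neg hw]
  · by_cases h1 : z ∈ W₁
    · rw [hΦ, if_pos h1]
      obtain ⟨h2, h3, h4⟩ := hb z h1
      exact ⟨h2.trans (le_max_left _ _),
        h3.trans (mul_le_mul_of_nonneg_right (le_max_left _ _) (norm_nonneg _)),
        h4.trans (mul_le_mul_of_nonneg_right (le_max_left _ _) (norm_nonneg _))⟩
    · rw [hΦ, if_neg h1]
      have h2 : Y z = 0 := by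
        by_contra h0
        refine h1 ?_
        rw [hW₁]
        exact ⟨hz, subset_closure ⟨hz, h0⟩⟩
      rw [h2, norm_one, norm_zero, sub_self, norm_zero]
      refine ⟨le_max_right _ _, ?_, by simp⟩
      rw [one_mul, add_zero]
      exact le_mul_of_one_le_left (norm_nonneg _) (le_max_right _ _)

end Pool.Agent.MPca0fc2.OVN
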