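import Pool.Agent.Lib.MP_ca0fc2_an.OV.Y1

/-! Campaign OVN, row Y2: division on open sets, with bounds at each point. -/

set_option autoImplicit false

open Metric Set MeasureTheory Filter Topology

namespace Pool.Agent.MPca0fc2.OVN

open Pool.Agent.MPca0fc2.OV

/-- division on open sets, with bounds at each point: `T` is divisible by `f i` if `|T| |f k| ≤ C |f i|` for
all `k` and the functions `f k` have no common zeros -/
theorem div_open {E : Type*} [NormedAddCommGroup E] [NormedSpace ℂ E] [FiniteDimensional ℂ E] {N : ℕ}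
    {V : Set E} (hV : IsOpen V) {T : E → ℂ} {f : Fin N → E → ℂ}
    (hT : DifferentiableOn ℂ T V) (hf : ∀ k, DifferentiableOn ℂ (f k) V)
    (hne : ∀ z ∈ V, ∃ k, f k z ≠ 0) {C : ℝ} (hC : 0 ≤ C) (i : Fin N)
    (h : ∀ z ∈ V, ∀ k, ‖T z‖ * ‖f k z‖ ≤ C * ‖f i z‖) :
    ∃ q : E → ℂ, DifferentiableOn ℂ q V ∧ (∀ z ∈ V, ∀ k, ‖q z‖ * ‖f k z‖ ≤ C) ∧
      ∀ z ∈ V, T z = f i z * q z := by
  classical
  have hT0 : ∀ z ∈ V, f i z = 0 → T z = 0 := by
    intro z hz h0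
    obtain ⟨k, hk⟩ := hne z hz
    have h1 := h z hz k
    rw [h0, norm_zero, mul_zero] at h1
    have h2 : 0 < ‖f k z‖ := norm_pos_iff.2 hk
    have h3 : ‖T z‖ ≤ 0 := by
      by_contra hcon
      push Not at hcon
      exact absurd h1 (not_le.2 (mul_pos hcon h2))
    exact norm_le_zero_iff.1 h3
  obtain ⟨V₁, hV₁⟩ : ∃ V₁ : Set E, V₁ = {z | z ∈ V ∧ z ∈ closure {w ∈ V | f i w ≠ 0}} := ⟨_, rfl⟩
  have ho : IsOpen V₁ := by
    rw [hV₁]
    exact isOpen_supp hV (hf i)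
  have hsub₁ : V₁ ⊆ V := by
    rw [hV₁]
    exact fun z hz => hz.1
  have hcl : ∀ z ∈ V₁, z ∈ closure {w | w ∈ V₁ ∧ f i w ≠ 0} := fun z hz => by
    have h1 : z ∈ closure {w ∈ V | f i w ≠ 0} := by
      rw [hV₁] at hz
      exact hz.2
    have h2 : {w ∈ V | f i w ≠ 0} ⊆ {w | w ∈ V₁ ∧ f i w ≠ 0} := by
      intro w hw
      refine ⟨?_, hw.2⟩
      rw [hV₁]
      exact ⟨hw.1, subset_closure hw⟩
    exact closure_mono h2 h1
  have hsub : {w | w ∈ V₁ ∧ f i w ≠ 0} ⊆ V := fun w hw => hsub₁ hw.1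
  have hdiv : DifferentiableOn ℂ (fun z => T z / f i z) {w | w ∈ V₁ ∧ f i w ≠ 0} := by
    have h2 : DifferentiableOn ℂ (fun z => (f i z)⁻¹) {w | w ∈ V₁ ∧ f i w ≠ 0} :=
      DifferentiableOn.inv ((hf i).mono hsub) fun w hw => hw.2
    simp only [div_eq_mul_inv]
    exact (hT.mono hsub).mul h2
  have hbd : ∀ w ∈ V, f i w ≠ 0 → ∀ k, ‖T w / f i w‖ * ‖f k w‖ ≤ C := by
    intro w hw h0 k
    have h2 : 0 < ‖f i w‖ := norm_pos_iff.2 h0
    rw [norm_div, div_mul_eq_mul_div, div_le_iff₀ h2]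
    exact h w hw k
  obtain ⟨ψ, hψ, hψe⟩ := riemann_ext ho (h := f i) ((hf i).mono hsub₁) hcl
    (φ := fun z => T z / f i z) hdiv
    (fun z hz => by
      obtain ⟨k, hk⟩ := hne z (hsub₁ hz)
      have h2 : 0 < ‖f k z‖ := norm_pos_iff.2 hk
      have h3 : ∀ᶠ w in 𝓝 z, ‖f k z‖ / 2 < ‖f k w‖ :=
        ((hf k).continuousOn.continuousAt (hV.mem_nhds (hsub₁ hz))).norm.eventually
          (lt_mem_nhds (half_lt_self h2))
      obtain ⟨r, hr, h4⟩ := Metric.eventually_nhds_iff_ball.1 h3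
      refine ⟨r, hr, C / (‖f k z‖ / 2), fun w hw hwr h0 => ?_⟩
      rw [le_div_iff₀ (half_pos h2)]
      exact le_trans (mul_le_mul_of_nonneg_left (h4 w hwr).le (norm_nonneg _))
        (hbd w (hsub₁ hw) h0 k))
  have hZ : ∀ z ∈ V, z ∉ V₁ → ∀ᶠ w in 𝓝 z, w ∉ V₁ := by
    intro z hz hz1
    rw [hV₁] at hz1 ⊢
    have h1 : z ∈ (closure {w ∈ V | f i w ≠ 0})ᶜ := fun h => hz1 ⟨hz, h⟩
    filter_upwards [isClosed_closure.isOpen_compl.mem_nhds h1] with w hw hw'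
    exact hw hw'.2
  have hz0 : ∀ z ∈ V, z ∉ V₁ → f i z = 0 := by
    intro z hz hz1
    by_contra h0
    refine hz1 ?_
    rw [hV₁]
    exact ⟨hz, subset_closure ⟨hz, h0⟩⟩
  obtain ⟨q, hq⟩ : ∃ q : E → ℂ, ∀ z, q z = if z ∈ V₁ then ψ z else 0 := ⟨_, fun z => rfl⟩
  refine ⟨q, fun z hz => ?_, fun z hz k => ?_, fun z hz => ?_⟩
  · refine DifferentiableAt.differentiableWithinAt ?_
    by_cases h1 : z ∈ V₁
    · refine (hψ.differentiableAt (ho.mem_nhds h1)).congr_of_eventuallyEq ?_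
      filter_upwards [ho.mem_nhds h1] with w hw
      rw [hq, if_pos hw]
    · refine (differentiableAt_const (0 : ℂ)).congr_of_eventuallyEq ?_
      filter_upwards [hZ z hz h1] with w hw
      rw [hq, if_neg hw]
  · by_cases h1 : z ∈ V₁
    · rw [hq, if_pos h1]
      have h2 : ContinuousWithinAt (fun w => ‖ψ w‖ * ‖f k w‖) {w | w ∈ V₁ ∧ f i w ≠ 0} z :=
        (((hψ.continuousOn z h1).norm).mono fun w hw => hw.1).mul
          ((((hf k).continuousOn z hz).norm).mono hsub)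
      have h3 : (𝓝[{w | w ∈ V₁ ∧ f i w ≠ 0}] z).NeBot := mem_closure_iff_nhdsWithin_neBot.1 (hcl z h1)
      refine le_of_tendsto h2 ?_
      filter_upwards [self_mem_nhdsWithin] with w hw
      rw [hψe w hw.1 hw.2]
      exact hbd w (hsub₁ hw.1) hw.2 k
    · rw [hq, if_neg h1, norm_zero, zero_mul]
      exact hC
  · by_cases h1 : z ∈ V₁
    · rw [hq, if_pos h1]
      by_cases h0 : f i z = 0
      · rw [hT0 z hz h0, h0, zero_mul]
      · rw [hψe z h1 h0, mul_div_cancel₀ _ h0]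
    · rw [hq, if_neg h1, mul_zero]
      exact hT0 z hz (hz0 z hz h1)

end Pool.Agent.MPca0fc2.OVN
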