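import Pool.Agent.Lib.MP_ca0fc2_an.Mg.G117
import Pool.Agent.Lib.MP_ca0fc2_an.OVN.Y1
import Pool.Agent.Lib.MP_ca0fc2_an.OVN.Y2

/-! Campaign OVN, row Y3: open sets, pointwise bounds which depend only on the omitted sets. -/

set_option autoImplicit false

open Metric Set MeasureTheory Filter Topology

namespace Pool.Agent.MPca0fc2.OVN

/-- **Pointwise bounds on open sets.** `K j k` compact sets which are not removable. There is a constant
`C` which depends only on these sets such that on every open set `V` in every `ℂⁿ` all holomorphic functions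
`f_1, .., f_N` without common zeros, such that `f_j / f_k`, `j < k`, takes no value in `K j k`, have
holomorphic solutions of `∑ f_j h_j = 1` with `|h_j| |f_k| ≤ C`. -/
theorem open_hom {N : ℕ} (K : Fin N → Fin N → Set ℂ) (hK : ∀ j k, j < k → OV.NonRem (K j k)) :
    ∃ C : ℝ, ∀ (n : ℕ) (V : Set (EuclideanSpace ℂ (Fin n)))
      (f : Fin N → EuclideanSpace ℂ (Fin n) → ℂ), IsOpen V →
      (∀ j, DifferentiableOn ℂ (f j) V) → (∀ z ∈ V, ∃ k, f k z ≠ 0) →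
      (∀ j k, j < k → ∀ a ∈ K j k, ∀ z ∈ V, f k z ≠ 0 → f j z ≠ a * f k z) →
      ∃ h : Fin N → EuclideanSpace ℂ (Fin n) → ℂ, (∀ j, DifferentiableOn ℂ (h j) V) ∧
        (∀ j, ∀ z ∈ V, ∀ k, ‖h j z‖ * ‖f k z‖ ≤ C) ∧ ∀ z ∈ V, ∑ j, f j z * h j z = 1 := by
  classical
  rcases N with _ | N
  · exact ⟨0, fun n V f _ _ hf _ => ⟨fun j => Fin.elim0 j, fun j => Fin.elim0 j,
      fun j => Fin.elim0 j, fun z hz => Fin.elim0 (hf z hz).choose⟩⟩
  -- the constants of the pairs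
  have hpair : ∀ q : Fin (N + 1) × Fin (N + 1), ∃ C : ℝ, q.1 < q.2 → ∀ {n : ℕ}
      (V : Set (EuclideanSpace ℂ (Fin n))) (X Y : EuclideanSpace ℂ (Fin n) → ℂ), IsOpen V →
      DifferentiableOn ℂ X V → DifferentiableOn ℂ Y V →
      (∀ a ∈ K q.1 q.2, ∀ z ∈ V, Y z ≠ 0 → X z ≠ a * Y z) → OV.Cut V X Y C := by
    intro q
    by_cases hq : q.1 < q.2
    · obtain ⟨C, hC⟩ := cut_removable_unif (hK q.1 q.2 hq)
      exact ⟨C, fun _ {n} V X Y => hC V X Y⟩
    · exact ⟨0, fun h => absurd h hq⟩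
  choose c hc using hpair
  obtain ⟨C, hC0, hC⟩ : ∃ C : ℝ, 0 ≤ C ∧ ∀ q, c q ≤ C :=
    ⟨∑ q, |c q|, Finset.sum_nonneg fun q _ => abs_nonneg _, fun q => (le_abs_self _).trans
      (Finset.single_le_sum (f := fun q => |c q|) (fun _ _ => abs_nonneg _) (Finset.mem_univ q))⟩
  obtain ⟨B, hB, hpart⟩ := OV.partition_unif C hC0 N
  refine ⟨B, fun n V f hV hf hlow hom => ?_⟩
  obtain ⟨Φ, h1, h2, h3⟩ := hpart V f fun i k hik =>
    (hc (i, k) hik V (f i) (f k) hV (hf i) (hf k) (hom i k hik)).mono_const (hC _)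
  have hdiv : ∀ i, ∃ q : EuclideanSpace ℂ (Fin n) → ℂ, DifferentiableOn ℂ q V ∧
      (∀ z ∈ V, ∀ k, ‖q z‖ * ‖f k z‖ ≤ B) ∧ ∀ z ∈ V, Φ i z = f i z * q z := fun i =>
    div_open hV (h1 i) hf hlow hB i fun z hz k => (h3 z hz i).2 k
  choose q hq1 hq2 hq3 using hdiv
  refine ⟨q, hq1, hq2, fun z hz => ?_⟩
  rw [← h2 z hz]
  exact Finset.sum_congr rfl fun i _ => (hq3 i z hz).symm

end Pool.Agent.MPca0fc2.OVN
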