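import Pool.Agent.Lib.MP_ca0fc2_an.Mg.G118
import Pool.Agent.Lib.MP_ca0fc2_an.Mg.G116
import Pool.Agent.Lib.MP_ca0fc2_an.OVN.X6

/-! Campaign OVN, row Y4: on all open sets the omitted set has to be not removable. -/

set_option autoImplicit false

open Metric Set MeasureTheory Filter Topology

namespace Pool.Agent.MPca0fc2.OVN

/-- limits of bounded holomorphic functions on `V ∩ ball 0 m`, `m → ∞` -/
theorem exhaust {V : Set ℂ} (hV : IsOpen V) {M : ℝ} {h : ℕ → Fin 2 → ℂ → ℂ}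
    (h1 : ∀ (m : ℕ) j, DifferentiableOn ℂ (h m j) (V ∩ ball 0 (m : ℝ)))
    (h2 : ∀ (m : ℕ) j, ∀ z ∈ V ∩ ball (0 : ℂ) (m : ℝ), ‖h m j z‖ ≤ M) (𝒰 : Ultrafilter ℕ)
    (h𝒰 : (𝒰 : Filter ℕ) ≤ atTop) :
    ∃ G : Fin 2 → ℂ → ℂ, (∀ j, DifferentiableOn ℂ (G j) V) ∧
      ∀ j, ∀ z ∈ V, Tendsto (fun i => h i j z) 𝒰 (𝓝 (G j z)) := by
  have hev : ∀ m : ℕ, ∀ᶠ i in (𝒰 : Filter ℕ), m ≤ i := fun m => h𝒰 (eventually_ge_atTop m)
  have hlim : ∀ (j : Fin 2) (m : ℕ), ∃ g : ℂ → ℂ, DifferentiableOn ℂ g (V ∩ ball 0 m) ∧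
      ∀ z ∈ V ∩ ball (0 : ℂ) m, Tendsto (fun i => h i j z) 𝒰 (𝓝 (g z)) := by
    intro j m
    obtain ⟨g, hg1, hg2⟩ := OV.ultra_holo_loc 𝒰 (V := V ∩ ball 0 m)
      (G := fun i z => if m ≤ i then h i j z else 0) (fun i => by
        by_cases hmi : m ≤ i
        · simp only [hmi, if_true]
          exact (h1 i j).mono fun z hz => ⟨hz.1, ball_subset_ball (by exact_mod_cast hmi) hz.2⟩
        · simp only [hmi, if_false]
          exact differentiableOn_const _) (fun z hz => by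
        obtain ⟨r, hr, h3⟩ := Metric.isOpen_iff.1 (hV.inter isOpen_ball) z hz
        refine ⟨r, hr, M, h3, ?_⟩
        filter_upwards [hev m] with i hi w hw
        rw [if_pos hi]
        exact h2 i j w ⟨(h3 hw).1, ball_subset_ball (by exact_mod_cast hi) (h3 hw).2⟩)
    refine ⟨g, hg1, fun z hz => (hg2 z hz).congr' ?_⟩
    filter_upwards [hev m] with i hi
    rw [if_pos hi]
  choose g hg1 hg2 using hlim
  have hmem : ∀ z ∈ V, ∃ m : ℕ, z ∈ V ∩ ball 0 (m : ℝ) := by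
    intro z hz
    obtain ⟨m, hm⟩ := exists_nat_gt ‖z‖
    exact ⟨m, hz, by rwa [mem_ball_zero_iff]⟩
  choose! m hm using hmem
  have hG : ∀ j, ∀ z ∈ V, Tendsto (fun i => h i j z) 𝒰 (𝓝 (g j (m z) z)) :=
    fun j z hz => hg2 j (m z) z (hm z hz)
  refine ⟨fun j z => g j (m z) z, fun j z hz => ?_, hG⟩
  have h4 : DifferentiableAt ℂ (g j (m z)) z :=
    (hg1 j (m z) z (hm z hz)).differentiableAt ((hV.inter isOpen_ball).mem_nhds (hm z hz))
  refine (h4.congr_of_eventuallyEq ?_).differentiableWithinAt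
  filter_upwards [(hV.inter isOpen_ball).mem_nhds (hm z hz)] with w hw
  exact tendsto_nhds_unique (hG j w hw.1) (hg2 j (m z) w hw)

/-- **Necessity, open sets.** -/
theorem nonRem_of_open {K : Set ℂ} (hK : IsCompact K) {n : ℕ} (hn : 1 ≤ n) {C : ℝ}
    (H : ∀ (D : Set (EuclideanSpace ℂ (Fin n))) (f : Fin 2 → EuclideanSpace ℂ (Fin n) → ℂ),
      IsOpen D → Bornology.IsBounded D → (∀ j, DifferentiableOn ℂ (f j) D) →
      (∀ j, ∃ M, ∀ z ∈ D, ‖f j z‖ ≤ M) → (∀ z ∈ D, 1 ≤ ∑ j, ‖f j z‖ ^ 2) →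
      (∀ a ∈ K, ∀ z ∈ D, f 1 z ≠ 0 → f 0 z ≠ a * f 1 z) →
      ∃ h : Fin 2 → EuclideanSpace ℂ (Fin n) → ℂ, (∀ j, DifferentiableOn ℂ (h j) D) ∧
        (∀ j, ∀ z ∈ D, ‖h j z‖ ≤ C / √(∑ k, ‖f k z‖ ^ 2)) ∧ ∀ z ∈ D, ∑ j, f j z * h j z = 1) :
    OV.NonRem K := by
  obtain ⟨n, rfl⟩ : ∃ m, n = m + 1 := ⟨n - 1, by omega⟩
  have hVo : IsOpen Kᶜ := hK.isClosed.isOpen_compl
  -- the solutions on the pieces
  have hpiece : ∀ m : ℕ, ∃ h : Fin 2 → ℂ → ℂ, (∀ j, DifferentiableOn ℂ (h j) (Kᶜ ∩ ball 0 m)) ∧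
      (∀ j, ∀ t ∈ Kᶜ ∩ ball (0 : ℂ) m, ‖h j t‖ ≤ C / √(‖t‖ ^ 2 + 1)) ∧
      ∀ t ∈ Kᶜ ∩ ball (0 : ℂ) m, t * h 0 t + h 1 t = 1 := by
    intro m
    have hDo : IsOpen (ball (0 : EuclideanSpace ℂ (Fin (n + 1))) m ∩
        {z : EuclideanSpace ℂ (Fin (n + 1)) | z 0 ∈ Kᶜ}) :=
      isOpen_ball.inter (hVo.preimage (coord_diff n).continuous)
    obtain ⟨h, h1, h2, h3⟩ := H _ ![fun z => z 0, fun _ => 1] hDo
      (isBounded_ball.subset inter_subset_left) (fun j => by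
        fin_cases j
        · exact (coord_diff n).differentiableOn
        · exact differentiableOn_const _) (fun j => by
        fin_cases j
        · refine ⟨m, fun z hz => ?_⟩
          have h4 := mem_ball_zero_iff.1 hz.1
          exact (norm_coord n z).trans h4.le
        · exact ⟨1, fun z _ => by simp⟩) (fun z _ => by
        rw [Fin.sum_univ_two]
        simp) (fun a ha z hz _ h4 => by
        have h5 : z 0 = a * 1 := h4
        rw [mul_one] at h5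
        exact hz.2 (h5 ▸ ha))
    have hemb : MapsTo (emb n) (Kᶜ ∩ ball (0 : ℂ) m)
        (ball (0 : EuclideanSpace ℂ (Fin (n + 1))) m ∩
          {z : EuclideanSpace ℂ (Fin (n + 1)) | z 0 ∈ Kᶜ}) := fun t ht => by
      refine ⟨?_, ?_⟩
      · rw [mem_ball_zero_iff, norm_emb]
        exact mem_ball_zero_iff.1 ht.2
      · show emb n t 0 ∈ Kᶜ
        rw [emb_apply]
        exact ht.1
    refine ⟨fun j t => h j (emb n t), fun j => (h1 j).comp (emb_diff n).differentiableOn hemb,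
      fun j t ht => ?_, fun t ht => ?_⟩
    · have h4 := h2 j _ (hemb ht)
      rw [Fin.sum_univ_two] at h4
      have h6 : ((![fun z : EuclideanSpace ℂ (Fin (n + 1)) => z 0, fun _ => 1] : Fin 2 →
          EuclideanSpace ℂ (Fin (n + 1)) → ℂ) 0) (emb n t) = t := by
        simp [emb_apply]
      have h7 : ((![fun z : EuclideanSpace ℂ (Fin (n + 1)) => z 0, fun _ => 1] : Fin 2 →
          EuclideanSpace ℂ (Fin (n + 1)) → ℂ) 1) (emb n t) = 1 := by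
        simp
      rw [h6, h7, norm_one, one_pow] at h4
      exact h4
    · have h4 := h3 _ (hemb ht)
      rw [Fin.sum_univ_two] at h4
      simpa [emb_apply] using h4
  choose h h1 h2 h3 using hpiece
  have hle : ∀ t : ℂ, C / √(‖t‖ ^ 2 + 1) ≤ |C| := by
    intro t
    have h4 : 1 ≤ √(‖t‖ ^ 2 + 1) := Real.le_sqrt_of_sq_le (by nlinarith [sq_nonneg ‖t‖])
    rw [div_le_iff₀ (by linarith)]
    exact (le_abs_self C).trans (le_mul_of_one_le_right (abs_nonneg C) h4)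
  obtain ⟨𝒰, h𝒰⟩ : ∃ 𝒰 : Ultrafilter ℕ, (𝒰 : Filter ℕ) ≤ atTop := Ultrafilter.exists_le atTop
  obtain ⟨G, hG1, hG2⟩ := exhaust hVo h1 (fun m j z hz => (h2 m j z hz).trans (hle z)) 𝒰 h𝒰
  have hev : ∀ t : ℂ, t ∈ Kᶜ → ∀ᶠ i : ℕ in (𝒰 : Filter ℕ), t ∈ Kᶜ ∩ ball (0 : ℂ) (i : ℝ) := by
    intro t ht
    obtain ⟨m, hm⟩ := exists_nat_gt ‖t‖
    filter_upwards [h𝒰 (eventually_ge_atTop m)] with i hi
    exact ⟨ht, mem_ball_zero_iff.2 (hm.trans_le (by exact_mod_cast hi))⟩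
  have hGb : ∀ j, ∀ t ∈ Kᶜ, ‖G j t‖ ≤ C / √(‖t‖ ^ 2 + 1) := fun j t ht => by
    refine le_of_tendsto (hG2 j t ht).norm ?_
    filter_upwards [hev t ht] with i hi
    exact h2 i j t hi
  have hGe : ∀ t ∈ Kᶜ, t * G 0 t + G 1 t = 1 := fun t ht => by
    refine tendsto_nhds_unique (((hG2 0 t ht).const_mul t).add (hG2 1 t ht))
      (tendsto_const_nhds.congr' ?_)
    filter_upwards [hev t ht] with i hi
    exact (h3 i t hi).symm
  -- `G 0` is not constant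
  refine ⟨hK, G 0, hG1 0, ⟨|C|, fun t ht => (hGb 0 t ht).trans (hle t)⟩, ?_⟩
  obtain ⟨R, hR⟩ := hK.isBounded.exists_norm_le
  have hbig : ∀ s : ℝ, |R| < s → (s : ℂ) ∈ Kᶜ := fun s hs hsK => by
    have h4 := hR _ hsK
    rw [Complex.norm_real, Real.norm_eq_abs] at h4
    linarith [le_abs_self s, le_abs_self R]
  have hdec : ∀ s : ℝ, |R| < s → ∀ j, ‖G j s‖ * s ≤ C := fun s hs j => by
    have hs0 : 0 < s := (abs_nonneg R).trans_lt hs
    have h4 := hGb j _ (hbig s hs)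
    rw [Complex.norm_real, Real.norm_of_nonneg hs0.le, le_div_iff₀ (by positivity)] at h4
    refine le_trans (mul_le_mul_of_nonneg_left ?_ (norm_nonneg _)) h4
    exact Real.le_sqrt_of_sq_le (by linarith)
  by_contra hcon
  push Not at hcon
  have hs₁ : |R| < |R| + 1 := by linarith
  have hconst : ∀ s : ℝ, |R| < s → G 0 s = G 0 ((|R| + 1 : ℝ) : ℂ) := fun s hs =>
    hcon _ (hbig s hs) _ (hbig _ hs₁)
  have hzero : G 0 ((|R| + 1 : ℝ) : ℂ) = 0 := by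
    by_contra hne
    have h4 : 0 < ‖G 0 ((|R| + 1 : ℝ) : ℂ)‖ := norm_pos_iff.2 hne
    obtain ⟨s, hs⟩ : ∃ s : ℝ, max |R| (C / ‖G 0 ((|R| + 1 : ℝ) : ℂ)‖) < s := exists_gt _
    have h5 := hdec s ((le_max_left _ _).trans_lt hs) 0
    rw [hconst s ((le_max_left _ _).trans_lt hs)] at h5
    have h6 := (le_max_right _ _).trans_lt hs
    rw [div_lt_iff₀ h4] at h6
    linarith
  obtain ⟨s, hs⟩ : ∃ s : ℝ, max |R| C < s := exists_gt _
  have hsR := (le_max_left _ _).trans_lt hs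
  have h5 := hGe _ (hbig s hsR)
  rw [hconst s hsR, hzero, mul_zero, zero_add] at h5
  have h6 := hdec s hsR 1
  rw [h5, norm_one, one_mul] at h6
  exact absurd h6 (not_le.2 ((le_max_right _ _).trans_lt hs))

end Pool.Agent.MPca0fc2.OVN
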